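import Pool.Agent.H19.OG.Bas
import Pool.Agent.H19.OG.Pln
import Pool.Agent.H19.OG.Ray
import Pool.Agent.H20.OG.WID
import Pool.Agent.H23.OG.F6

/-!
# Row INS: inside the nef cone there are no very good approximations
-/

namespace Pool.OG

namespace INSaux

variable {X : Data}

theorem lin_int' {n : ℕ} (c : Fin n → ℤ) (D : Fin n → ℤ) : ∃ m : ℤ, lin c (re D) = m :=
  ⟨∑ i, c i * D i, by simp [lin, re]⟩

/-- the classes `a H - b G` with `b < a τ` are ample -/
theorem ample_comb (hP : Pos X) {H G : Fin X.n → ℤ} {τ : ℝ} (hr : Ray X H G τ) (a b : ℤ)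
    (ha : 0 < a) (hb : (b : ℝ) < a * τ) : X.Ample (a • H - b • G) := by
  have ha' : (0 : ℝ) < a := by exact_mod_cast ha
  have hτ := hr.pos
  set η : ℝ := a * τ - b with hη
  have hη0 : 0 < η := by linarith
  set t : ℝ := min a (η / τ) with ht
  have ht0 : 0 < t := lt_min ha' (div_pos hη0 hτ)
  have h1 : t ≤ a := min_le_left _ _
  have h2 : t * τ ≤ η := by
    rw [← le_div_iff₀ hτ]; exact min_le_right _ _
  rw [hP.kleiman]
  have h3 : re (a • H - b • G) =
      t • re H + ((a - t) • (re H - τ • re G) + (η - t * τ) • re G) := by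
    ext i
    simp only [re, Pi.add_apply, Pi.smul_apply, Pi.sub_apply, smul_eq_mul, hη]
    push_cast
    ring
  rw [h3]
  exact int_add (int_smul ht0 (ample_int hP hr.ample))
    (nef_add (nef_smul (by linarith) hr.mem) (nef_smul (by linarith) hr.nef))

end INSaux

open INSaux

variable {X : Data}

theorem inside_of (hX : Facts X) {H G : Fin X.n → ℤ} {τ : ℝ} (hr : Ray X H G τ)
    (hcoef : ∀ D : Fin X.n → ℤ, X.Ample D → ∀ E : X.Pr →₀ ℚ, Eff X E D → ∀ p : X.Pr,
      (E p : ℝ) ^ 3 ≤ tri X.t (re D) (re D) (re D))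
    (hone : ∀ V : Set X.Pt, VG X V → ∀ D : Fin X.n → ℤ, X.Ample D → ∀ A T R : ℝ, 0 ≤ A → 0 ≤ R →
      (∀ E, Eff X E D → ∀ p, (E p : ℝ) ≤ A) → 3 * (T + 1) ^ 2 < lin X.c2 (re D) / 12 →
      A < T → tri X.t (re D) (re D) (re D) < R * (T - A) ^ 2 →
      ∀ x ∈ V, ∃ C, 0 < X.mq C x ∧ lin (X.dg C) (re D) ≤ R * X.mq C x)
    (hR : ¬ X.RC) :
    ∃ c : ℝ, 0 < c ∧ ∀ a b : ℤ, 0 < a → b < a * τ → c ≤ a * (a * τ - b) := by
  classical
  have hP := hX.pos
  set M : Fin X.n → ℝ := re H - τ • re G with hM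
  set c0 := lin X.c2 M with hc0
  set m1 := tri X.t M M (re G) with hm1
  set m2 := tri X.t M (re G) (re G) with hm2
  set m3 := tri X.t (re G) (re G) (re G) with hm3
  have c0p : 0 < c0 := hr.c2
  have m1p : 0 < m1 := hr.sq
  have m2p : 0 ≤ m2 := hP.nef_mul _ hr.mem _ hr.nef _ hr.nef
  have m3p : 0 ≤ m3 := hP.nef_mul _ hr.nef _ hr.nef _ hr.nef
  set Q := 3 * m1 + 3 * m2 + m3 with hQ
  have Qp : 0 < Q := by linarith
  set ε := min 1 (c0 / (200 * Q)) with hε
  have εp : 0 < ε := lt_min one_pos (by positivity)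
  have ε1 : ε ≤ 1 := min_le_left _ _
  have ε2 : Q * ε ≤ c0 / 200 := by
    have h1 : ε ≤ c0 / (200 * Q) := min_le_right _ _
    calc Q * ε ≤ Q * (c0 / (200 * Q)) := mul_le_mul_of_nonneg_left h1 Qp.le
      _ = c0 / 200 := by field_simp
  -- large `a`
  have large : ∀ a b : ℤ, 12100 / c0 ≤ (a : ℝ) → 0 < a → (b : ℝ) < a * τ →
      ε ≤ a * (a * τ - b) := by
    intro a b haB ha hb
    by_contra hcon
    push Not at hcon
    have ha1 : (1 : ℝ) ≤ a := by exact_mod_cast ha
    set η : ℝ := a * τ - b with hη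
    have hη0 : 0 < η := by linarith
    have hη1 : η ≤ 1 := by nlinarith
    have hD := ample_comb hP hr a b ha hb
    set D := a • H - b • G with hDdef
    have hDre : re D = (a : ℝ) • M + η • re G := by
      rw [hDdef]
      ext i
      simp only [re, Pi.add_apply, Pi.smul_apply, Pi.sub_apply, smul_eq_mul, hη, hM]
      push_cast
      ring
    -- the cube
    have hD3 : tri X.t (re D) (re D) (re D) ≤ Q * ε * a := by
      have h1 : tri X.t (re D) (re D) (re D) =
          3 * a ^ 2 * η * m1 + 3 * a * η ^ 2 * m2 + η ^ 3 * m3 := by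
        have e0 : tri X.t M M M = 0 := hr.cube
        have e1 : tri X.t M (re G) M = m1 := by rw [tri_symm2 hP]
        have e2 : tri X.t (re G) M M = m1 := by rw [tri_symm1 hP, e1]
        have e3 : tri X.t (re G) M (re G) = m2 := by rw [tri_symm1 hP]
        have e4 : tri X.t (re G) (re G) M = m2 := by rw [tri_symm2 hP, e3]
        rw [hDre]
        simp only [tri_add1, tri_add2, tri_add3, tri_smul1, tri_smul2, tri_smul3, e0, e1, e2, e3,
          e4, ← hm1, ← hm2, ← hm3]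
        ring
      have h2 : (a : ℝ) * η ≤ ε := hcon.le
      have h3 : (a : ℝ) ^ 2 * η ≤ ε * a := by
        calc (a : ℝ) ^ 2 * η = a * η * a := by ring
          _ ≤ ε * a := mul_le_mul_of_nonneg_right h2 (by linarith)
      have h4 : (a : ℝ) * η ^ 2 ≤ ε * a := by
        calc (a : ℝ) * η ^ 2 = a * η * η := by ring
          _ ≤ ε * a := mul_le_mul h2 (by linarith) hη0.le εp.le
      have hηa : η ≤ a := by linarith
      have h5 : η ^ 3 ≤ ε * a := by
        calc η ^ 3 = 1 * η * η * η := by ring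
          _ ≤ a * η * a * 1 := by gcongr
          _ ≤ ε * a * 1 := by gcongr
          _ = ε * a := by ring
      rw [h1]
      calc 3 * (a : ℝ) ^ 2 * η * m1 + 3 * a * η ^ 2 * m2 + η ^ 3 * m3 =
          3 * m1 * ((a : ℝ) ^ 2 * η) + 3 * m2 * (a * η ^ 2) + m3 * η ^ 3 := by ring
        _ ≤ 3 * m1 * (ε * a) + 3 * m2 * (ε * a) + m3 * (ε * a) := by gcongr
        _ = Q * ε * a := by rw [hQ]; ring
    -- the second Chern class
    have hDc : c0 * a ≤ lin X.c2 (re D) := by
      rw [hDre, lin_add, lin_smul, lin_smul]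
      have := c2_nonneg hP hr.nef
      nlinarith [mul_nonneg hη0.le this]
    set u := Real.sqrt (c0 * a) with hu
    have hu2 : u ^ 2 = c0 * a := Real.sq_sqrt (by positivity)
    have hu110 : 110 ≤ u := by
      rw [hu]
      apply Real.le_sqrt_of_sq_le
      rw [div_le_iff₀ c0p] at haB
      linarith
    have hD3' : tri X.t (re D) (re D) (re D) ≤ u ^ 2 / 200 := by
      rw [hu2]
      calc tri X.t (re D) (re D) (re D) ≤ Q * ε * a := hD3
        _ ≤ c0 / 200 * a := by gcongr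
        _ = c0 * a / 200 := by ring
    have hA : ∀ E, Eff X E D → ∀ p, (E p : ℝ) ≤ u / 28 := by
      intro E hE p
      have h1 := (hcoef D hD E hE p).trans hD3'
      have h2 : u ^ 2 / 200 ≤ (u / 28) ^ 3 := by
        have : (u / 28) ^ 3 - u ^ 2 / 200 = u ^ 2 * (u / 21952 - 1 / 200) := by ring
        nlinarith [mul_nonneg (sq_nonneg u) (show (0 : ℝ) ≤ u / 21952 - 1 / 200 by linarith)]
      exact le_of_pow_le_pow_left₀ (by norm_num) (by linarith) (h1.trans h2)
    have hT : 3 * (u / 7 + 1) ^ 2 < lin X.c2 (re D) / 12 := by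
      have h1 : u / 7 + 1 < u / 6 := by linarith
      have h2 : (u / 7 + 1) ^ 2 < (u / 6) ^ 2 := by
        apply pow_lt_pow_left₀ h1 (by linarith) (by norm_num)
      have h3 : c0 * a / 12 ≤ lin X.c2 (re D) / 12 := by linarith
      rw [← hu2] at h3
      nlinarith
    have hRT : tri X.t (re D) (re D) (re D) < 1 / 2 * (u / 7 - u / 28) ^ 2 := by
      have h1 : (1 : ℝ) / 2 * (u / 7 - u / 28) ^ 2 = 9 / 1568 * u ^ 2 := by ring
      rw [h1]
      have h2 : 0 < u ^ 2 := by positivity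
      linarith
    obtain ⟨V, hV⟩ := hX.vg
    have hS5 := hone V hV D hD (u / 28) (u / 7) (1 / 2) (by linarith) (by norm_num) hA hT
      (by linarith) hRT
    obtain ⟨x, hx⟩ := hV.ne
    obtain ⟨C, hCx, hCd⟩ := hS5 x hx
    have hex : ∃ E, Eff X E D ∧ u / 28 + 2 * (1 / 2) < mpt X E x := by
      by_contra hno
      push Not at hno
      have h1 := width hX D hD x (u / 28 + 2 * (1 / 2)) (by linarith) hno
      have h2 : (u / 28 + 2 * (1 / 2) + 1) ^ 2 ≤ (u / 7 + 1) ^ 2 := by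
        apply pow_le_pow_left₀ (by linarith)
        linarith
      linarith
    obtain ⟨S, hS⟩ := step6 hX hR V hV D hD (u / 28) (1 / 2) hA x hx hex C hCx hCd
    obtain ⟨z, hzV, hz0, hzS⟩ := hV.dense C x hx hCx (S ∪ (hX.cyc.cv_sing C).toFinset)
    rw [Finset.mem_union, not_or, Set.Finite.mem_toFinset] at hzS
    have hz1 : X.mq C z = 1 := by
      have h1 : ¬ 1 < X.mq C z := hzS.2
      omega
    obtain ⟨C', hC'z, hC'd⟩ := hS5 z hzV
    have hCC : C' = C := hS z hzV hz0 hzS.1 C' hC'z hC'd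
    rw [hCC, hz1] at hC'd
    obtain ⟨m, hm⟩ := lin_int' (X.dg C) D
    have hpos := hP.ample_deg D hD C
    rw [hm] at hC'd hpos
    have hm0 : 0 < m := by exact_mod_cast hpos
    have hm1' : (1 : ℝ) ≤ m := by exact_mod_cast hm0
    norm_num at hC'd
    linarith
  -- small `a`
  obtain ⟨N, hN⟩ := exists_nat_gt (12100 / c0)
  have small : ∃ c : ℝ, 0 < c ∧ ∀ a : ℤ, 0 < a → a ≤ N → c ≤ Int.fract ((a : ℝ) * τ) := by
    rcases (Finset.Icc (1 : ℤ) N).eq_empty_or_nonempty with h0 | h0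
    · refine ⟨1, one_pos, fun a ha haN => ?_⟩
      have : a ∈ Finset.Icc (1 : ℤ) N := Finset.mem_Icc.2 ⟨ha, haN⟩
      rw [h0] at this
      simp at this
    · obtain ⟨a0, ha0, hmin⟩ := Finset.exists_min_image _
        (fun a : ℤ => Int.fract ((a : ℝ) * τ)) h0
      refine ⟨Int.fract ((a0 : ℝ) * τ), ?_, fun a ha haN => hmin a (Finset.mem_Icc.2 ⟨ha, haN⟩)⟩
      rw [Finset.mem_Icc] at ha0
      refine lt_of_le_of_ne (Int.fract_nonneg _) fun h1 => ?_
      have h2 : (a0 : ℝ) * τ = ⌊(a0 : ℝ) * τ⌋ := by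
        have := Int.floor_add_fract ((a0 : ℝ) * τ)
        linarith
      have h3 : Irrational ((a0 : ℝ) * τ) := hr.irr.intCast_mul (by omega)
      rw [h2] at h3
      exact h3 ⟨⌊(a0 : ℝ) * τ⌋, by simp⟩
  obtain ⟨c, hc, hcs⟩ := small
  refine ⟨min ε c, lt_min εp hc, fun a b ha hb => ?_⟩
  have ha1 : (1 : ℝ) ≤ a := by exact_mod_cast ha
  by_cases haN : a ≤ N
  · refine (min_le_right _ _).trans ((hcs a ha haN).trans ?_)
    have h1 : (b : ℝ) ≤ ⌊(a : ℝ) * τ⌋ := by
      exact_mod_cast Int.le_floor.2 hb.le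
    have h2 := Int.floor_add_fract ((a : ℝ) * τ)
    have h3 : Int.fract ((a : ℝ) * τ) ≤ a * τ - b := by linarith
    have h4 : 0 ≤ (a : ℝ) * τ - b := by linarith
    nlinarith
  · refine (min_le_left _ _).trans (large a b ?_ ha hb)
    have : (N : ℝ) < a := by
      push Not at haN
      exact_mod_cast haN
    linarith

end Pool.OG
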