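import Mathlib
import Pool.Agent.H19.OG.Defs
import Pool.Agent.H19.OG.Bas
import Pool.Agent.H19.OG.Pln

/-!
Step 1: a nef integral class of cube zero has `c2 · D = 0`.
-/

namespace Pool.OG

variable {X : Data}

/-- Two classes of the closed positive cone of the form `(x, y) ↦ x y H`, one of them nef and big,
have nonnegative product (Hodge index theorem). -/
theorem light_cone (hP : Pos X) {H : Fin X.n → ℤ} (hH : X.Ample H) (x B : Fin X.n → ℝ)
    (hB : B ∈ interior (Nef X)) (hx : 0 ≤ tri X.t x (re H) (re H))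
    (hxx : 0 ≤ tri X.t x x (re H)) : 0 ≤ tri X.t x B (re H) := by
  have hHi := ample_int hP hH
  set h := tri X.t (re H) (re H) (re H) with hh
  set p := tri X.t B (re H) (re H) with hp
  set s := tri X.t x (re H) (re H) with hs
  set XB := tri X.t x B (re H) with hXB
  set B2 := tri X.t B B (re H) with hB2
  set X2 := tri X.t x x (re H) with hX2
  have h0 : 0 < h := hP.ample_cube H hH
  have p0 : 0 < p := int_pos hP hB hHi hHi
  have b0 : 0 < B2 := int_pos hP hB hB hHi
  by_contra hcon
  push Not at hcon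
  set e := h * (-XB) / p with he
  have e0 : 0 < e := div_pos (mul_pos h0 (by linarith)) p0
  have ep : e * p = h * (-XB) := div_mul_cancel₀ _ p0.ne'
  set z : Fin X.n → ℝ := (h * p) • x + (-(h * (s + e))) • B + (e * p) • re H with hz
  have e1 : tri X.t (re H) B (re H) = p := by rw [tri_symm1 hP]
  have e2 : tri X.t (re H) x (re H) = s := by rw [tri_symm1 hP]
  have e3 : tri X.t B x (re H) = XB := by rw [tri_symm1 hP]
  have z1 : tri X.t z (re H) (re H) = 0 := by
    simp only [hz, tri_add1, tri_smul1, ← hh, ← hp, ← hs]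
    ring
  have z2 : tri X.t z z (re H) = h ^ 2 * p ^ 2 * X2 + h ^ 2 * (s + e) ^ 2 * B2 -
      2 * h ^ 2 * p * (s + e) * XB - (e * p) * (e * p) * h := by
    simp only [hz, tri_add1, tri_add2, tri_smul1, tri_smul2, ← hh, ← hp, ← hs, ← hXB, ← hB2,
      ← hX2, e1, e2, e3]
    ring
  have z3 := hP.hodge H hH z z1
  rw [z2] at z3
  have t1 : 0 ≤ h ^ 2 * p ^ 2 * X2 := by positivity
  have t2 : 0 < h ^ 2 * (s + e) ^ 2 * B2 := by
    have : 0 < s + e := by linarith
    positivity
  have t3 : (e * p) * (e * p) * h = h ^ 2 * p * e * (-XB) := by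
    calc (e * p) * (e * p) * h = (e * p) * (h * (-XB)) * h := by rw [ep]
      _ = h ^ 2 * p * e * (-XB) := by ring
  have t4 : 0 ≤ h ^ 2 * p * s * (-XB) := by
    have : 0 ≤ -XB := by linarith
    positivity
  have t5 : 0 < h ^ 2 * p * e * (-XB) := by
    have : 0 < -XB := by linarith
    positivity
  nlinarith [t1, t2, t3, t4, t5]

/-- a nonzero nef class `D` with `D ^ 2 H = 0`, `D ^ 3 = 0` has `D H ^ 2 > 0` -/
theorem nef_pos (hP : Pos X) (hC : Coh X) (hR : ¬ X.RC) {D H : Fin X.n → ℤ} (hD : D ≠ 0)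
    (hn : re D ∈ Nef X) (hH : X.Ample H) (h3 : tri X.t (re D) (re D) (re D) = 0)
    (h2 : tri X.t (re D) (re D) (re H) = 0) : 0 < tri X.t (re D) (re H) (re H) := by
  obtain ⟨τ, hτ, -, hτ3, -⟩ := exit hP hC hR hD hn hH
  have h1 := cube_expand hP (re H) (re D) (-τ)
  rw [neg_smul, ← sub_eq_add_neg, hτ3, h3, h2] at h1
  have h4 := hP.ample_cube H hH
  have h5 : 0 < tri X.t (re D) (re H) (re H) * τ := by linarith
  exact (mul_pos_iff_of_pos_right hτ).1 h5

/-- ROW ONE (Step 1). -/
theorem one (hX : Facts X) (hR : ¬ X.RC) (D : Fin X.n → ℤ) (hD : D ≠ 0) (hn : re D ∈ Nef X)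
    (h3 : tri X.t (re D) (re D) (re D) = 0) : lin X.c2 (re D) = 0 := by
  have hP := hX.pos
  have hC := hX.coh
  have hB := hX.bun
  have hc0 := c2_nonneg hP hn
  by_contra hne
  have hc : 0 < lin X.c2 (re D) := lt_of_le_of_ne hc0 (Ne.symm hne)
  have hna : ¬ X.Ample D := fun ha => by
    have := hP.ample_cube D ha
    linarith
  have hh0 : X.h 0 D = 0 := by
    by_contra h
    exact hna (eff_ample hC hR hD h)
  have hrr := hC.rr D
  rw [h3, hh0] at hrr
  have hh2 : X.h 2 D ≠ 0 := by
    intro h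
    rw [h] at hrr
    have h1 : (0 : ℝ) ≤ (X.h 1 D : ℝ) := Nat.cast_nonneg _
    have h4 : (0 : ℝ) ≤ (X.h 3 D : ℝ) := Nat.cast_nonneg _
    push_cast at hrr
    linarith
  -- the square of `D` is numerically zero
  have hsq : ∀ E : Fin X.n → ℤ, tri X.t (re D) (re D) (re E) = 0 := by
    intro E
    by_contra h
    exact hh2 (hC.kv D hn ⟨E, h⟩ 2 le_rfl)
  have hh1 : X.h 1 (-D) ≠ 0 := by
    have := hC.serre 2 (by norm_num) D
    rw [this] at hh2
    exact hh2
  obtain ⟨E, hb1, hb2, hsub⟩ := hB.ext D hh1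
  obtain ⟨H, hH⟩ := hP.projective
  have hHi := ample_int hP hH
  have hDH : tri X.t (re D) (re D) (re H) = 0 := hsq H
  have hpos := nef_pos hP hC hR hD hn hH h3 hDH
  have hst : ¬ X.Stable H E := by
    intro hs
    have h1 := hB.luebke H hH E hs
    rw [hb1, hb2, hDH] at h1
    have h2 : lin (0 : Fin X.n → ℤ) (re H) = 0 := by simp [lin]
    rw [h2] at h1
    linarith
  obtain ⟨A, hA, hAH⟩ := hB.unst H hH E hst
  rw [hb1] at hAH
  rcases hsub A hA with h | ⟨hne', h⟩
  · by_cases hA0 : A = 0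
    · rw [hA0, re_zero, tri_zero1] at hAH
      linarith
    · have hamp := eff_ample hC hR (D := -A) (neg_ne_zero.2 hA0) h
      have h1 := int_pos hP (ample_int hP hamp) hHi hHi
      rw [re_neg, show -re A = (-1 : ℝ) • re A by simp, tri_smul1] at h1
      linarith
  · have hamp := eff_ample hC hR hne' h
    have hBi := ample_int hP hamp
    have h1 := hB.sub_c2 H hH A E hA
    rw [hb1, hb2] at h1
    have h2 : lin (0 : Fin X.n → ℤ) (re H) = 0 := by simp [lin]
    rw [h2] at h1
    -- `x = A - B`, `B = D - A`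
    set a := re A with ha
    set b := re (D - A) with hb
    have hDe : re D = a + b := by rw [hb, re_sub]; simp [ha]
    have hba : tri X.t b a (re H) = tri X.t a b (re H) := tri_symm1 hP _ _ _
    have h3' : tri X.t (re D) (re D) (re H) = tri X.t a a (re H) + 2 * tri X.t a b (re H) +
        tri X.t b b (re H) := by
      rw [hDe]
      simp only [tri_add1, tri_add2, hba]
      ring
    rw [hDH] at h3'
    have h4 : tri X.t (re D) (re H) (re H) = tri X.t a (re H) (re H) +
        tri X.t b (re H) (re H) := by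
      rw [hDe, tri_add1]
    have h5 : 0 ≤ tri X.t (a - b) (re H) (re H) := by
      rw [tri_sub1]; linarith
    have h6 : 0 ≤ tri X.t (a - b) (a - b) (re H) := by
      simp only [tri_sub1, tri_sub2, hba]
      linarith
    have h7 := light_cone hP hH (a - b) b hBi h5 h6
    rw [tri_sub1] at h7
    have h8 := int_pos hP hBi hBi hHi
    linarith

end Pool.OG
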