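import Mathlib
import Pool.Agent.H19.OG.Base

/-!
The interior of the nef cone, by integral classes.
-/

namespace Pool.OG

variable {X : Data}

theorem lin_add' {n : ℕ} (c : Fin n → ℤ) (x y : Fin n → ℝ) :
    lin c (x + y) = lin c x + lin c y := by
  simp [lin, mul_add, Finset.sum_add_distrib]

theorem lin_smul' {n : ℕ} (c : Fin n → ℤ) (r : ℝ) (x : Fin n → ℝ) :
    lin c (r • x) = r * lin c x := by
  simp only [lin, Pi.smul_apply, smul_eq_mul, Finset.mul_sum]
  exact Finset.sum_congr rfl fun i _ => by ring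

theorem re_add' {n : ℕ} (D E : Fin n → ℤ) : re (D + E) = re D + re E := by
  ext i; simp [re]

theorem re_smul' {n : ℕ} (k : ℤ) (D : Fin n → ℤ) : re (k • D) = (k : ℝ) • re D := by
  ext i; simp [re]

theorem lin_single {n : ℕ} (c : Fin n → ℤ) (i : Fin n) (k : ℤ) :
    lin c (re (Pi.single i k)) = k * c i := by
  rw [lin, Finset.sum_eq_single i]
  · simp [re, mul_comm]
  · intro j _ hj
    simp [re, hj]
  · simp

/-- a class is in the interior of the nef cone if and only if the sum of any class and of a large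
multiple of it is nef -/
theorem interior_iff (D : Fin X.n → ℤ) : re D ∈ interior (Nef X) ↔
    ∀ E : Fin X.n → ℤ, ∃ m : ℕ, 0 < m ∧ ∀ C, 0 ≤ lin (X.dg C) (re ((m : ℤ) • D + E)) := by
  constructor
  · intro h E
    obtain ⟨ε, hε, hb⟩ := Metric.mem_nhds_iff.1 (mem_interior_iff_mem_nhds.1 h)
    obtain ⟨m, hm⟩ := exists_nat_gt (‖re E‖ / ε)
    have hm0 : (0 : ℝ) < m := lt_of_le_of_lt (by positivity) hm
    refine ⟨m, by exact_mod_cast hm0, fun C => ?_⟩
    have h1 : re D + (m : ℝ)⁻¹ • re E ∈ Nef X := by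
      apply hb
      rw [Metric.mem_ball, dist_eq_norm, add_sub_cancel_left, norm_smul, norm_inv,
        Real.norm_natCast, inv_mul_lt_iff₀ hm0]
      rwa [div_lt_iff₀ hε] at hm
    have h2 : re ((m : ℤ) • D + E) = (m : ℝ) • (re D + (m : ℝ)⁻¹ • re E) := by
      rw [re_add', re_smul', smul_add, smul_smul, mul_inv_cancel₀ hm0.ne', one_smul]
      simp
    rw [h2, lin_smul']
    exact mul_nonneg hm0.le (h1 C)
  · intro h
    have hD : ∀ C, 0 ≤ lin (X.dg C) (re D) := by
      intro C
      obtain ⟨m, hm, h1⟩ := h 0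
      have h2 := h1 C
      rw [add_zero, re_smul', lin_smul'] at h2
      exact nonneg_of_mul_nonneg_right h2 (by exact_mod_cast hm)
    have key : ∀ i : Fin X.n, ∃ M : ℝ, 0 ≤ M ∧ ∀ C, |(X.dg C i : ℝ)| ≤ M * lin (X.dg C) (re D) := by
      intro i
      obtain ⟨m₁, _, h1⟩ := h (Pi.single i 1)
      obtain ⟨m₂, _, h2⟩ := h (Pi.single i (-1))
      refine ⟨max (m₁ : ℝ) m₂, by positivity, fun C => ?_⟩
      have h1' := h1 C
      have h2' := h2 C
      rw [re_add', lin_add', re_smul', lin_smul', lin_single] at h1' h2'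
      have h3 : (m₁ : ℝ) * lin (X.dg C) (re D) ≤ max (m₁ : ℝ) m₂ * lin (X.dg C) (re D) :=
        mul_le_mul_of_nonneg_right (le_max_left _ _) (hD C)
      have h4 : (m₂ : ℝ) * lin (X.dg C) (re D) ≤ max (m₁ : ℝ) m₂ * lin (X.dg C) (re D) :=
        mul_le_mul_of_nonneg_right (le_max_right _ _) (hD C)
      push_cast at h1' h2'
      rw [abs_le]
      constructor <;> linarith
    choose M hM0 hM using key
    set S : ℝ := ∑ i, M i with hS
    have hS0 : 0 ≤ S := Finset.sum_nonneg fun i _ => hM0 i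
    rw [mem_interior_iff_mem_nhds, Metric.mem_nhds_iff]
    refine ⟨(S + 1)⁻¹, by positivity, fun x hx C => ?_⟩
    rw [Metric.mem_ball, dist_eq_norm] at hx
    have h5 : lin (X.dg C) x = lin (X.dg C) (re D) + lin (X.dg C) (x - re D) := by
      rw [← lin_add']; congr 1; abel
    have h6 : |lin (X.dg C) (x - re D)| ≤ ∑ i, M i * lin (X.dg C) (re D) * (S + 1)⁻¹ := by
      refine (Finset.abs_sum_le_sum_abs _ _).trans (Finset.sum_le_sum fun i _ => ?_)
      rw [abs_mul]
      refine mul_le_mul (hM i C) ?_ (abs_nonneg _) (mul_nonneg (hM0 i) (hD C))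
      exact (norm_le_pi_norm (x - re D) i).trans hx.le
    rw [← Finset.sum_mul, ← Finset.sum_mul, ← hS] at h6
    have h7 : S * lin (X.dg C) (re D) * (S + 1)⁻¹ ≤ lin (X.dg C) (re D) := by
      rw [mul_inv_le_iff₀ (by positivity)]
      nlinarith [hD C]
    rw [h5]
    have h8 := neg_abs_le (lin (X.dg C) (x - re D))
    linarith

end Pool.OG
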