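import Pool.Agent.H53.OG.Real
import Pool.Agent.H19.OG.Theory
import Pool.Agent.H53.OG.Klm

namespace Pool.OGR

open AlgebraicGeometry CategoryTheory

variable {X : Scheme.{0}} [IsIntegral X] [IsLocallyNoetherian X] (s : X ⟶ Spec (.of ℂ))

/-! ### Homomorphisms -/

theorem deg_spec (h : Lines s) (C : Cv X) : IsDeg C (deg C) := by
  have e : deg C = (h.deg_exists C).choose := by
    funext a
    rw [deg, dif_pos (h.deg_exists C)]
  rw [e]
  exact (h.deg_exists C).choose_spec

theorem tri_spec (h : Lines s) : IsInt (tri (X := X)) := by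
  have e : tri (X := X) = h.tri_exists.choose := by
    funext a b c
    rw [tri, dif_pos h.tri_exists]
  rw [e]
  exact h.tri_exists.choose_spec

theorem c2_spec (h : Lines s) : IsC2 s (c2 s) := by
  have e : c2 s = h.c2_exists.choose := by
    funext a
    rw [c2, dif_pos h.c2_exists]
  rw [e]
  exact h.c2_exists.choose_spec

/-- the degree as a homomorphism -/
noncomputable def degH (h : Lines s) (C : Cv X) : Pic X →+ ℤ :=
  AddMonoidHom.mk' (deg C) (deg_spec s h C).1

/-- the intersection form as a homomorphism -/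
noncomputable def triH (h : Lines s) : Pic X →+ Pic X →+ Pic X →+ ℤ :=
  AddMonoidHom.mk' (fun a => AddMonoidHom.mk' (fun b => AddMonoidHom.mk' (fun c => tri a b c)
    ((tri_spec s h).2.2.1 a b)) (fun b b' => AddMonoidHom.ext fun c => (tri_spec s h).2.1 a b b' c))
    (fun a a' => AddMonoidHom.ext fun b => AddMonoidHom.ext fun c => (tri_spec s h).1 a a' b c)

/-- the second Chern class as a homomorphism -/
noncomputable def c2H (h : Lines s) : Pic X →+ ℤ := AddMonoidHom.mk' (c2 s) (c2_spec s h).1

theorem degH_eq (h : Lines s) (C : Cv X) (a : Pic X) : deg C a = degH s h C a := rfl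

theorem triH_eq (h : Lines s) (a b c : Pic X) : tri a b c = triH s h a b c := rfl

theorem c2H_eq (h : Lines s) (a : Pic X) : c2 s a = c2H s h a := rfl

theorem deg_zero (h : Lines s) (C : Cv X) : deg C 0 = 0 := map_zero (degH s h C)

theorem deg_add (h : Lines s) (C : Cv X) (a b : Pic X) : deg C (a + b) = deg C a + deg C b :=
  map_add (degH s h C) a b

theorem deg_neg (h : Lines s) (C : Cv X) (a : Pic X) : deg C (-a) = -deg C a :=
  map_neg (degH s h C) a

theorem deg_nsmul (h : Lines s) (C : Cv X) (m : ℕ) (a : Pic X) : deg C (m • a) = m * deg C a := by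
  rw [← nsmul_eq_mul]
  exact map_nsmul (degH s h C) m a

theorem c2_zero (h : Lines s) : c2 s 0 = 0 := map_zero (c2H s h)

/-- `χ(a) - h^0(a) + h^0(-a) = h^2(a) - h^1(a)`. -/
noncomputable def gap (a : Pic X) : ℤ :=
  (2 * tri a a a + c2 s a) / 12 - h0 s a + h0 s (-a)

variable {n : ℕ} (b : Module.Basis (Fin n) ℤ (Pic X))

/-- The data of the abstract theorem. -/
noncomputable abbrev dat : OG.Data where
  n := n
  t i j k := tri (b i) (b j) (b k)
  c2 i := c2 s (b i)
  Ample D := Ample (b.equivFun.symm D)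
  h i D := match i with
    | 0 => h0 s (b.equivFun.symm D)
    | 1 => (-(gap s (b.equivFun.symm D))).toNat
    | 2 => (gap s (b.equivFun.symm D)).toNat
    | 3 => h0 s (-(b.equivFun.symm D))
    | _ => 0
  RC := HasRationalCurve s
  Bd := {E : Bundle X × Pic X // NonSplit E.1 E.2}
  b1 E := b.equivFun E.1.2
  b2 _ := 0
  Sub A E := LineIn E.1.1 (b.equivFun.symm A)
  Stable H E := ∀ B, LineIn E.1.1 B → 2 * tri B (b.equivFun.symm H) (b.equivFun.symm H) <
    tri E.1.2 (b.equivFun.symm H) (b.equivFun.symm H)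
  Pt := Pt X
  Cv := Cv X
  Pr := Pr X
  dg C i := deg C (b i)
  cl p := b.equivFun (clp p)
  mp p x := mlt p x.pt
  mc p C := mlt p C.pt
  mq C x := mqt C x

/-! ### Real classes -/

theorem lin_re (f : Pic X →+ ℤ) (D : Fin n → ℤ) :
    OG.lin (fun i => f (b i)) (OG.re D) = (f (b.equivFun.symm D) : ℝ) := by
  simp only [OG.lin, OG.re, Module.Basis.equivFun_symm_apply, map_sum, map_zsmul, smul_eq_mul,
    Int.cast_sum, Int.cast_mul]
  exact Finset.sum_congr rfl fun i _ => mul_comm _ _

theorem sum_rev (f : Fin n → Fin n → Fin n → ℝ) :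
    ∑ i, ∑ j, ∑ k, f i j k = ∑ k, ∑ j, ∑ i, f i j k := by
  rw [Finset.sum_comm, Finset.sum_congr rfl fun j _ => Finset.sum_comm, Finset.sum_comm]

theorem tri_re (T : Pic X →+ Pic X →+ Pic X →+ ℤ) (D E F : Fin n → ℤ) :
    OG.tri (fun i j k => T (b i) (b j) (b k)) (OG.re D) (OG.re E) (OG.re F) =
      (T (b.equivFun.symm D) (b.equivFun.symm E) (b.equivFun.symm F) : ℝ) := by
  simp only [OG.tri, OG.re, Module.Basis.equivFun_symm_apply, map_sum, map_zsmul, smul_eq_mul,
    AddMonoidHom.finsetSum_apply, AddMonoidHom.smul_apply, Int.cast_sum, Int.cast_mul,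
    Finset.mul_sum]
  rw [sum_rev]
  refine Finset.sum_congr rfl fun i _ => Finset.sum_congr rfl fun j _ =>
    Finset.sum_congr rfl fun k _ => ?_
  ring

/-! ### Facts which need not be assumed -/

/-- the group of line bundles is generated by the prime divisors -/
theorem pic_induction {P : Pic X → Prop} (h0 : P 0) (h1 : ∀ a b, P a → P b → P (a + b))
    (h2 : ∀ (p : Pr X) (k : ℤ), P (k • clp p)) (a : Pic X) : P a := by
  obtain ⟨D, rfl⟩ := QuotientAddGroup.mk_surjective a
  induction D using Finsupp.induction_linear with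
  | zero => exact h0
  | add f g hf hg => exact h1 _ _ hf hg
  | single p k =>
    have h3 : (Finsupp.single p k : Div X) = k • Finsupp.single p 1 := by simp
    rw [h3]
    exact h2 p k

/-- the intersection form is symmetric in the first two arguments -/
theorem tri_comm' (h : Lines s) (a b c : Pic X) : tri a b c = tri b a c := by
  rw [triH_eq s h, triH_eq s h b a c]
  induction a using pic_induction with
  | h0 => simp
  | h1 a a' ha ha' => rw [map_add, map_add, AddMonoidHom.add_apply, AddMonoidHom.add_apply,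
      AddMonoidHom.add_apply, ha, ha']
  | h2 p k =>
    induction b using pic_induction with
    | h0 => simp
    | h1 b b' hb hb' => rw [map_add, map_add, AddMonoidHom.add_apply, AddMonoidHom.add_apply,
        AddMonoidHom.add_apply, hb, hb']
    | h2 q l =>
      have h3 : triH s h (clp p) (clp q) c = triH s h (clp q) (clp p) c := by
        by_cases hpq : p = q
        · rw [hpq]
        · rw [← triH_eq, ← triH_eq, (tri_spec s h).2.2.2 p q hpq,
            (tri_spec s h).2.2.2 q p (Ne.symm hpq)]
          exact finsum_congr fun C => by rw [len₂, len₂, sup_comm]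
      simp only [map_zsmul, AddMonoidHom.smul_apply, h3, smul_eq_mul]
      ring

/-- the sum of a line bundle and of a large multiple of an ample line bundle is ample -/
theorem ample_add (h : Lines s) {c : Pic X} (hc : Ample c) (a : Pic X) :
    ∃ N : ℕ, ∀ m : ℕ, N ≤ m → Ample (a + m • c) := by
  obtain ⟨m₁, _, h1⟩ := (h.kleiman c).1 hc a
  have hcn : Nef c := by
    intro C
    obtain ⟨m, hm, h1⟩ := (h.kleiman c).1 hc 0
    have h2 := h1 C
    rw [add_zero, deg_nsmul s h] at h2
    exact nonneg_of_mul_nonneg_right h2 (by exact_mod_cast hm)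
  refine ⟨m₁ + 1, fun m hm => (h.kleiman _).2 fun b => ?_⟩
  obtain ⟨k, hk, h2⟩ := (h.kleiman c).1 hc b
  refine ⟨k, hk, fun C => ?_⟩
  have e1 := h1 C
  have e2 := h2 C
  have e3 := hcn C
  obtain ⟨j, rfl⟩ := Nat.exists_eq_add_of_le hm
  simp only [deg_add s h, deg_nsmul s h] at e1 e2 ⊢
  push_cast at e1 e2 ⊢
  have e4 : 0 ≤ (k : ℤ) * (m₁ * deg C c + deg C a) := mul_nonneg (by positivity) e1
  have e5 : 0 ≤ (k : ℤ) * (j * deg C c) := by positivity
  linarith

/-- Riemann-Roch: the Euler characteristic of a line bundle is an integer -/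
theorem rr_int (hX : CalabiYau s) (h : Lines s) (a : Pic X) :
    (12 : ℤ) ∣ 2 * tri a a a + c2 s a := by
  obtain ⟨c, hc⟩ := hX.projective
  obtain ⟨N, hN⟩ := ample_add s h hc a
  have h1 : ∀ m : ℕ, N ≤ m →
      (12 : ℤ) ∣ 2 * tri (a + m • c) (a + m • c) (a + m • c) + c2 s (a + m • c) :=
    fun m hm => ⟨_, ((c2_spec s h).2 _ (hN m hm)).symm⟩
  -- the fourth difference of a cubic polynomial is zero
  have h2 : ∀ j m : ℕ, m + j = N →
      (12 : ℤ) ∣ 2 * tri (a + m • c) (a + m • c) (a + m • c) + c2 s (a + m • c) := by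
    intro j
    induction j using Nat.strong_induction_on with
    | _ j ih =>
      intro m hm
      have key : ∀ i : ℕ, 0 < i → (12 : ℤ) ∣ 2 * tri (a + (m + i) • c) (a + (m + i) • c)
          (a + (m + i) • c) + c2 s (a + (m + i) • c) := by
        intro i hi
        rcases le_or_gt N (m + i) with h3 | h3
        · exact h1 _ h3
        · exact ih (j - i) (by omega) (m + i) (by omega)
      have k1 := key 1 (by norm_num)
      have k2 := key 2 (by norm_num)
      have k3 := key 3 (by norm_num)
      have k4 := key 4 (by norm_num)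
      rcases Nat.eq_zero_or_pos j with hj | hj
      · exact h1 m (by omega)
      · have e : 2 * tri (a + m • c) (a + m • c) (a + m • c) + c2 s (a + m • c) =
            4 * (2 * tri (a + (m + 1) • c) (a + (m + 1) • c) (a + (m + 1) • c) +
              c2 s (a + (m + 1) • c)) -
            6 * (2 * tri (a + (m + 2) • c) (a + (m + 2) • c) (a + (m + 2) • c) +
              c2 s (a + (m + 2) • c)) +
            4 * (2 * tri (a + (m + 3) • c) (a + (m + 3) • c) (a + (m + 3) • c) +
              c2 s (a + (m + 3) • c)) -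
            (2 * tri (a + (m + 4) • c) (a + (m + 4) • c) (a + (m + 4) • c) +
              c2 s (a + (m + 4) • c)) := by
          simp only [triH_eq s h, c2H_eq s h, map_add, map_nsmul, AddMonoidHom.add_apply,
            AddMonoidHom.smul_apply, nsmul_eq_mul]
          push_cast
          ring
        rw [e]
        exact dvd_sub (dvd_add (dvd_sub (k1.mul_left 4) (k2.mul_left 6)) (k3.mul_left 4)) k4
  have h3 := h2 N 0 (by simp)
  simpa using h3

/-- the group of line bundles is free -/
theorem pic_free (h : Lines s) : Module.Free ℤ (Pic X) := by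
  have := h.pic_finite
  have : IsAddTorsionFree (Pic X) := ⟨fun m hm a b hab => by
    have h1 : m • (a - b) = 0 := by
      have h2 : m • a = m • b := hab
      rw [nsmul_sub, h2, sub_self]
    refine sub_eq_zero.1 (h.numerical _ fun C => ?_)
    have h3 := congrArg (deg C) h1
    rw [deg_nsmul s h, deg_zero s h] at h3
    exact (mul_eq_zero.1 h3).resolve_left (by exact_mod_cast hm)⟩
  infer_instance

/-! ### The number `gap` -/

theorem gap_neg (hX : CalabiYau s) (h : Lines s) (a : Pic X) : gap s (-a) = - gap s a := by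
  obtain ⟨k, hk⟩ := rr_int s hX h a
  have h1 : 2 * tri (-a) (-a) (-a) + c2 s (-a) = 12 * (-k) := by
    have h2 : 2 * triH s h (-a) (-a) (-a) + c2H s h (-a) = 12 * (-k) := by
      simp only [map_neg, AddMonoidHom.neg_apply, ← triH_eq, ← c2H_eq]
      linarith
    exact h2
  rw [gap, gap, h1, hk, neg_neg, Int.mul_ediv_cancel_left _ (by norm_num),
    Int.mul_ediv_cancel_left _ (by norm_num)]
  ring

theorem gap_eq (hX : CalabiYau s) (h : Lines s) (a : Pic X) :
    12 * gap s a = 2 * tri a a a + c2 s a - 12 * h0 s a + 12 * h0 s (-a) := by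
  obtain ⟨k, hk⟩ := rr_int s hX h a
  rw [gap, hk, Int.mul_ediv_cancel_left _ (by norm_num)]
  ring

/-- `X` contains a curve. -/
theorem exists_curve (hX : CalabiYau s) (h : Lines s) : Nonempty (Cv X) := by
  by_contra hC
  rw [not_nonempty_iff] at hC
  obtain ⟨a, ha⟩ := hX.projective
  have h1 := h.c2_pos a ha
  rw [h.numerical a fun C => hC.elim C, c2_zero s h] at h1
  exact lt_irrefl _ h1

theorem ample_ne (h : Lines s) {a : Pic X} (ha : Ample a) : a ≠ 0 := by
  rintro rfl
  have h1 := h.c2_pos 0 ha
  rw [c2_zero s h] at h1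
  exact lt_irrefl _ h1

/-- an ample line bundle is nef -/
theorem nef_of_ample (h : Lines s) {a : Pic X} (ha : Ample a) : Nef a := by
  intro C
  obtain ⟨m, hm, h1⟩ := (h.kleiman a).1 ha 0
  have h2 := h1 C
  rw [add_zero, deg_nsmul s h] at h2
  exact nonneg_of_mul_nonneg_right h2 (by exact_mod_cast hm)

/-- an ample line bundle has positive degree on every curve -/
theorem deg_pos (h : Lines s) {a : Pic X} (ha : Ample a) (C : Cv X) : 0 < deg C a := by
  obtain ⟨b, hb⟩ := h.curve_ne C
  refine lt_of_le_of_ne (nef_of_ample s h ha C) fun h0 => ?_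
  rcases lt_or_gt_of_ne hb with hb | hb
  · obtain ⟨m, _, h1⟩ := (h.kleiman a).1 ha b
    have h2 := h1 C
    rw [deg_add s h, deg_nsmul s h, ← h0, mul_zero, zero_add] at h2
    linarith
  · obtain ⟨m, _, h1⟩ := (h.kleiman a).1 ha (-b)
    have h2 := h1 C
    rw [deg_add s h, deg_nsmul s h, ← h0, mul_zero, zero_add, deg_neg s h] at h2
    linarith

/-- the negative of a nontrivial nef line bundle has no section -/
theorem h0_neg (hX : CalabiYau s) (h : Lines s) (hR : ¬ HasRationalCurve s) {a : Pic X}
    (ha : Nef a) (ha0 : a ≠ 0) : h0 s (-a) = 0 := by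
  by_contra h1
  obtain ⟨C⟩ := exists_curve s hX h
  have h2 := deg_pos s h ((h.peternell (-a) (neg_ne_zero.2 ha0) h1).resolve_right hR) C
  have h3 := ha C
  rw [deg_neg s h] at h2
  linarith

/-! ### Positivity -/

theorem lin_dg (h : Lines s) (C : Cv X) (D : Fin n → ℤ) :
    OG.lin ((dat s b).dg C) (OG.re D) = (deg C (b.equivFun.symm D) : ℝ) :=
  lin_re b (degH s h C) D

theorem lin_c2 (h : Lines s) (D : Fin n → ℤ) :
    OG.lin (dat s b).c2 (OG.re D) = (c2 s (b.equivFun.symm D) : ℝ) :=
  lin_re b (c2H s h) D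

theorem tri_t (h : Lines s) (D E F : Fin n → ℤ) :
    OG.tri (dat s b).t (OG.re D) (OG.re E) (OG.re F) =
      (tri (b.equivFun.symm D) (b.equivFun.symm E) (b.equivFun.symm F) : ℝ) :=
  tri_re b (triH s h) D E F

theorem nef_iff (h : Lines s) (D : Fin n → ℤ) :
    OG.re D ∈ OG.Nef (dat s b) ↔ Nef (b.equivFun.symm D) := by
  refine forall_congr' fun C => ?_
  rw [lin_dg s b h]
  exact Int.cast_nonneg_iff

theorem symm_comb (m : ℕ) (D E : Fin n → ℤ) :
    b.equivFun.symm ((m : ℤ) • D + E) = m • b.equivFun.symm D + b.equivFun.symm E := by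
  rw [map_add, map_zsmul, natCast_zsmul]

theorem positivity (hX : CalabiYau s) (h : Lines s) : OG.Positivity (dat s b) where
  symm1 i j k := tri_comm' s h _ _ _
  symm2 i j k := h.tri_comm _ _ _
  numerical D hD := by
    have h1 : b.equivFun.symm D = 0 := h.numerical _ fun C => by
      have h2 := hD C
      rw [lin_dg s b h] at h2
      exact_mod_cast h2
    exact (LinearEquiv.map_eq_zero_iff _).1 h1
  cv_ne C h0 := by
    obtain ⟨a, ha⟩ := h.curve_ne C
    apply ha
    have h1 := lin_dg s b h C (b.equivFun a)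
    rw [h0, LinearEquiv.symm_apply_apply] at h1
    simp only [OG.lin, Pi.zero_apply, Int.cast_zero, zero_mul, Finset.sum_const_zero] at h1
    exact_mod_cast h1.symm
  projective := by
    obtain ⟨a, ha⟩ := hX.projective
    exact ⟨b.equivFun a, by simpa using ha⟩
  kleiman D := by
    rw [OG.interior_iff]
    refine (h.kleiman (b.equivFun.symm D)).trans ?_
    constructor
    · intro h1 E
      obtain ⟨m, hm, h2⟩ := h1 (b.equivFun.symm E)
      refine ⟨m, hm, ?_⟩
      have h3 := (nef_iff s b h ((m : ℤ) • D + E)).2 (by rw [symm_comb]; exact h2)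
      exact h3
    · intro h1 c
      obtain ⟨m, hm, h2⟩ := h1 (b.equivFun c)
      refine ⟨m, hm, ?_⟩
      have h3 := (nef_iff s b h ((m : ℤ) • D + b.equivFun c)).1 h2
      rwa [symm_comb, LinearEquiv.symm_apply_apply] at h3
  c2_pos H hH := by
    rw [lin_c2 s b h]
    exact_mod_cast h.c2_pos _ hH

/-! ### Cohomology -/

theorem cohomology (hX : CalabiYau s) (h : Lines s) (hR : ¬ HasRationalCurve s) :
    OG.Cohomology (dat s b) where
  rr D := by
    rw [tri_t s b h, lin_c2 s b h]
    have h1 := gap_eq s hX h (b.equivFun.symm D)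
    have h2 := Int.toNat_sub_toNat_neg (gap s (b.equivFun.symm D))
    have h3 : (((gap s (b.equivFun.symm D)).toNat : ℝ) - ((-gap s (b.equivFun.symm D)).toNat : ℝ)) =
        (gap s (b.equivFun.symm D) : ℝ) := by exact_mod_cast h2
    have h4 : (12 * gap s (b.equivFun.symm D) : ℝ) = 2 * tri (b.equivFun.symm D)
      (b.equivFun.symm D) (b.equivFun.symm D) + c2 s (b.equivFun.symm D) -
      12 * h0 s (b.equivFun.symm D) + 12 * h0 s (-(b.equivFun.symm D)) := by exact_mod_cast h1
    show 12 * ((h0 s (b.equivFun.symm D) : ℝ) - ((-gap s (b.equivFun.symm D)).toNat : ℝ) +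
      ((gap s (b.equivFun.symm D)).toNat : ℝ) - (h0 s (-(b.equivFun.symm D)) : ℝ)) = _
    linarith
  serre i hi D := by
    interval_cases i
    · show h0 s (b.equivFun.symm D) = h0 s (-(b.equivFun.symm (-D)))
      simp
    · show (-gap s (b.equivFun.symm D)).toNat = (gap s (b.equivFun.symm (-D))).toNat
      rw [map_neg, gap_neg s hX h]
    · show (gap s (b.equivFun.symm D)).toNat = (-gap s (b.equivFun.symm (-D))).toNat
      rw [map_neg, gap_neg s hX h, neg_neg]
    · show h0 s (-(b.equivFun.symm D)) = h0 s (b.equivFun.symm (-D))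
      simp
  kodaira D hD i hi := by
    have h1 := h0_neg s hX h hR (nef_of_ample s h hD) (ample_ne s h hD)
    have h2 : gap s (b.equivFun.symm D) = 0 := by
      have h3 := gap_eq s hX h (b.equivFun.symm D)
      have h4 := (c2_spec s h).2 _ hD
      rw [h1] at h3
      push_cast at h3
      linarith
    match i, hi with
    | 1, _ => show (-gap s (b.equivFun.symm D)).toNat = 0; rw [h2]; rfl
    | 2, _ => show (gap s (b.equivFun.symm D)).toNat = 0; rw [h2]; rfl
    | 3, _ => exact h1
    | (_ + 4), _ => rfl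
  peternell D hD h1 := h.peternell _ (fun h2 => hD ((LinearEquiv.map_eq_zero_iff _).1 h2)) h1

end Pool.OGR
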