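import Pool.Agent.H53.OG.Bridge

namespace Pool.OGR

set_option linter.unusedSectionVars false

open AlgebraicGeometry CategoryTheory

variable {X : Scheme.{0}} [IsIntegral X] [IsLocallyNoetherian X] (s : X ⟶ Spec (.of ℂ))
variable {n : ℕ} (b : Module.Basis (Fin n) ℤ (Pic X))

/-! ### Bundles of rank two -/

theorem rankTwo (hX : CalabiYau s) (h : Lines s) (hB : Bundles s) : OG.RankTwo (dat s b) where
  ext D hD := by
    have h1 : 0 < gap s (b.equivFun.symm D) := by
      by_contra h2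
      apply hD
      show (-gap s (b.equivFun.symm (-D))).toNat = 0
      rw [map_neg, gap_neg s hX h, neg_neg]
      exact Int.toNat_of_nonpos (not_lt.1 h2)
    obtain ⟨E, hE⟩ := hB.extension (b.equivFun.symm D) (by
      have h2 := gap_eq s hX h (b.equivFun.symm D)
      linarith)
    refine ⟨⟨(E, b.equivFun.symm D), hE⟩, LinearEquiv.apply_symm_apply _ _, rfl, fun A hA => ?_⟩
    rcases hB.line_in E _ _ hE hA with h2 | ⟨h2, h3⟩
    · left
      show h0 s (b.equivFun.symm (-A)) ≠ 0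
      rwa [map_neg]
    · right
      refine ⟨fun h4 => h2 ?_, ?_⟩
      · rw [← map_sub, h4, map_zero]
      · show h0 s (b.equivFun.symm (D - A)) ≠ 0
        rwa [map_sub]
  unst H hH E hE := by
    have h1 : ∃ B, LineIn E.1.1 B ∧ ¬ 2 * tri B (b.equivFun.symm H) (b.equivFun.symm H) <
        tri E.1.2 (b.equivFun.symm H) (b.equivFun.symm H) := by
      by_contra h2
      push Not at h2
      exact hE h2
    obtain ⟨B, hB1, hB2⟩ := h1
    refine ⟨b.equivFun B, ?_, ?_⟩
    · show LineIn E.1.1 (b.equivFun.symm (b.equivFun B))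
      rwa [LinearEquiv.symm_apply_apply]
    · rw [tri_t s b h, tri_t s b h]
      show (tri (b.equivFun.symm (b.equivFun E.1.2)) (b.equivFun.symm H) (b.equivFun.symm H) : ℝ) ≤ _
      rw [LinearEquiv.symm_apply_apply, LinearEquiv.symm_apply_apply]
      exact_mod_cast not_lt.1 hB2
  sub_c2 H hH A E hA := by
    have h1 := hB.line_tri E.1.1 E.1.2 _ E.2 hA _ hH
    have h2 : b.equivFun.symm ((dat s b).b1 E - A) = E.1.2 - b.equivFun.symm A := by
      show b.equivFun.symm (b.equivFun E.1.2 - A) = _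
      rw [map_sub, LinearEquiv.symm_apply_apply]
    rw [tri_t s b h, h2]
    have h3 : OG.lin ((dat s b).b2 E) (OG.re H) = 0 := by simp [OG.lin]
    rw [h3]
    exact_mod_cast h1
  luebke H hH E hE := by
    have h1 := hB.luebke E.1.1 E.1.2 _ E.2 hH hE
    have h3 : OG.lin ((dat s b).b2 E) (OG.re H) = 0 := by simp [OG.lin]
    rw [tri_t s b h, h3, mul_zero]
    show (tri (b.equivFun.symm (b.equivFun E.1.2)) (b.equivFun.symm (b.equivFun E.1.2))
      (b.equivFun.symm H) : ℝ) < 0
    rw [LinearEquiv.symm_apply_apply]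
    exact_mod_cast h1

/-! ### Divisors -/

theorem idl_top {y x : Point X} (h : ¬ On y x) : idl y x = ⊤ := by
  rw [idl, dif_neg h]

theorem len_top {x : Point X} : len (⊤ : Ideal (Loc x)) = 0 := by
  rw [len]
  have : Subsingleton (Loc x ⧸ (⊤ : Ideal (Loc x))) :=
    Ideal.Quotient.subsingleton_iff.2 rfl
  rw [Module.length_eq_zero]
  rfl

theorem mlt_zero {p : Pr X} {x : Point X} (h : ¬ On p.pt x) : mlt p x = 0 := by
  rw [mlt, idl_top h]
  have h1 : {m : ℕ | (⊤ : Ideal (Loc x)) ≤ mpw x m} = {0} := by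
    ext m
    simp only [Set.mem_ofPred_eq, Set.mem_singleton_iff, top_le_iff, mpw]
    constructor
    · intro h2
      by_contra h3
      have h4 := Ideal.pow_le_self (I := IsLocalRing.maximalIdeal (Loc x)) h3
      rw [h2, top_le_iff] at h4
      exact (IsLocalRing.maximalIdeal.isMaximal _).ne_top h4
    · rintro rfl
      simp
  rw [h1, csSup_singleton]

theorem clear {α : Type} (D : α →₀ ℚ) :
    ∃ m : ℕ, 0 < m ∧ ∃ E : α →₀ ℤ, ∀ p, (E p : ℚ) = m * D p := by
  classical
  induction D using Finsupp.induction with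
  | zero => exact ⟨1, one_pos, 0, by simp⟩
  | single_add a q D _ _ ih =>
    obtain ⟨m, hm, E, hE⟩ := ih
    refine ⟨m * q.den, mul_pos hm q.den_pos, Finsupp.single a (m * q.num) + (q.den : ℤ) • E,
      fun p => ?_⟩
    have h1 : (q.num : ℚ) = q * q.den := (Rat.mul_den_eq_num q).symm
    rw [Finsupp.add_apply, Finsupp.add_apply, Finsupp.smul_apply, Finsupp.single_apply,
      Finsupp.single_apply]
    split_ifs with h2
    · push_cast [smul_eq_mul, hE p, h1]
      ring
    · push_cast [smul_eq_mul, hE p]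
      ring

theorem cl_sum (E : Pr X →₀ ℤ) : cl (X := X) E = E.sum fun p k => k • clp p := by
  have h1 : E = E.sum fun p k => k • Finsupp.single p (1 : ℤ) := by
    conv_lhs => rw [← Finsupp.sum_single E]
    simp
  let φ : (Pr X →₀ ℤ) →+ Pic X := (QuotientAddGroup.mk' (Prin X) : Div X →+ Div X ⧸ Prin X)
  have h2 : cl (X := X) E = φ E := rfl
  conv_lhs => rw [h2, h1, Finsupp.sum, map_sum]
  refine Finset.sum_congr rfl fun p _ => ?_
  rw [map_zsmul]
  rfl

theorem re_injective {D E : Fin n → ℤ} (h : OG.re D = OG.re E) : D = E := by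
  ext i
  have := congrFun h i
  simpa [OG.re] using this

/-- the class of an effective rational divisor, as a real class -/
theorem cls_eq (D : Pr X →₀ ℚ) (m : ℕ) (E : Pr X →₀ ℤ) (h : ∀ p, (E p : ℚ) = m * D p) :
    (m : ℝ) • OG.cls (dat s b) D = OG.re (b.equivFun (cl (X := X) E)) := by
  classical
  have h1 : ∀ p, (E p : ℝ) = m * (D p : ℝ) := fun p => by exact_mod_cast congrArg (Rat.cast : ℚ → ℝ) (h p)
  have h2 : OG.cls (dat s b) D = ∑ p ∈ D.support ∪ E.support, (D p : ℝ) • OG.re (b.equivFun (clp p)) :=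
    Finsupp.sum_of_support_subset D Finset.subset_union_left _ (by simp)
  have h3 : cl (X := X) E = ∑ p ∈ D.support ∪ E.support, E p • clp p :=
    (cl_sum E).trans (Finsupp.sum_of_support_subset E Finset.subset_union_right _ (by simp))
  rw [h2, h3]
  ext i
  simp only [Pi.smul_apply, Finset.sum_apply, OG.re, map_sum, map_zsmul, smul_eq_mul,
    Int.cast_sum, Int.cast_mul, Finset.mul_sum]
  exact Finset.sum_congr rfl fun p _ => by rw [h1 p]; ring

theorem eff_iff (D : Pr X →₀ ℚ) (H : Fin n → ℤ) :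
    OG.Eff (dat s b) D H ↔ Eff (X := X) D (b.equivFun.symm H) := by
  refine and_congr_right fun _ => ?_
  constructor
  · intro h1
    obtain ⟨m, hm, E, hE⟩ := clear D
    refine ⟨m, hm, E, hE, ?_⟩
    have h2 := cls_eq s b D m E hE
    rw [h1] at h2
    have h3 : OG.re ((m : ℤ) • H) = OG.re (b.equivFun (cl (X := X) E)) := by
      rw [← h2, OG.re_smul']
      simp
    have h4 := re_injective h3
    rw [← natCast_zsmul, ← map_zsmul, h4, LinearEquiv.symm_apply_apply]
  · rintro ⟨m, hm, E, hE, h1⟩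
    have h2 := cls_eq s b D m E hE
    rw [h1, map_nsmul, LinearEquiv.apply_symm_apply, ← natCast_zsmul, OG.re_smul'] at h2
    have hm' : (m : ℝ) ≠ 0 := by exact_mod_cast hm.ne'
    exact smul_right_injective _ hm' (by simpa using h2)

theorem mpt_eq (D : Pr X →₀ ℚ) (x : Pt X) :
    OG.mpt (dat s b) D x = ((mpt (X := X) D x.pt : ℚ) : ℝ) := by
  simp only [OG.mpt, mpt, Finsupp.sum]
  push_cast
  rfl

theorem mcv_eq (D : Pr X →₀ ℚ) (C : Cv X) :
    OG.mcv (dat s b) D C = ((mpt (X := X) D C.pt : ℚ) : ℝ) := by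
  simp only [OG.mcv, mpt, Finsupp.sum]
  push_cast
  rfl

/-! ### Cycles -/

theorem clN_eq (E : Pr X →₀ ℕ) :
    OG.clN (dat s b) E = b.equivFun (cl (X := X) (E.mapRange (Nat.cast : ℕ → ℤ) rfl)) := by
  rw [cl_sum, Finsupp.sum_mapRange_index (by simp), OG.clN, Finsupp.sum, Finsupp.sum, map_sum]
  exact Finset.sum_congr rfl fun p _ => (map_zsmul _ _ _).symm

theorem cycles (h : Lines s) (hY : Cycles s) (hT : Sections s) : OG.Cycles (dat s b) where
  pr_h0 p := by
    show h0 s (b.equivFun.symm (b.equivFun (clp p))) ≠ 0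
    rw [LinearEquiv.symm_apply_apply]
    exact hY.prime_h0 p
  pr_ne p := fun h1 => hY.prime_ne p ((LinearEquiv.map_eq_zero_iff _).1 h1)
  pr_pt p := hY.prime_pt p
  mc_le p C x hx := hY.mlt_le p C x ((hY.mqt_pos C x).1 hx)
  bez p C x h1 := by
    rw [lin_dg s b h]
    show (mlt p x.pt : ℝ) * (mqt C x : ℝ) ≤ (deg C (b.equivFun.symm (b.equivFun (clp p))) : ℝ)
    rw [LinearEquiv.symm_apply_apply]
    exact_mod_cast hY.bezout p C x h1
  inter p q hpq := by
    classical
    let f : Cv X → ℕ := fun C => len₂ (idl (Pr.pt p) C.pt) (idl (Pr.pt q) C.pt)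
    have hf : ∀ C, f C ≠ 0 → C ∈ (hY.prime_meet p q hpq).toFinset := by
      intro C h1
      rw [Set.Finite.mem_toFinset]
      refine ⟨?_, ?_⟩
      · by_contra h2
        apply h1
        show len₂ (idl (Pr.pt p) C.pt) (idl (Pr.pt q) C.pt) = 0
        rw [len₂, idl_top h2, top_sup_eq, len_top]
      · by_contra h2
        apply h1
        show len₂ (idl (Pr.pt p) C.pt) (idl (Pr.pt q) C.pt) = 0
        rw [len₂, idl_top h2, sup_top_eq, len_top]
    refine ⟨Finsupp.onFinset _ f hf, fun A => ?_, fun x => ?_⟩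
    · rw [tri_t s b h]
      show (tri (b.equivFun.symm (b.equivFun (clp p))) (b.equivFun.symm (b.equivFun (clp q)))
        (b.equivFun.symm A) : ℝ) = _
      rw [LinearEquiv.symm_apply_apply, LinearEquiv.symm_apply_apply,
        (tri_spec s h).2.2.2 p q hpq,
        finsum_eq_sum_of_support_subset (s := (hY.prime_meet p q hpq).toFinset) _ (by
          intro C hC
          rw [Function.mem_support] at hC
          refine hf C fun h1 => hC ?_
          show ((f C : ℕ) : ℤ) * _ = 0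
          rw [h1]; simp),
        Finsupp.onFinset_sum _ (by simp)]
      push_cast
      exact Finset.sum_congr rfl fun C _ => by rw [lin_dg s b h]
    · refine (hY.samuel p q hpq x).trans (le_of_eq ?_)
      rw [finsum_eq_sum_of_support_subset (s := (hY.prime_meet p q hpq).toFinset) _ (by
          intro C hC
          rw [Function.mem_support] at hC
          refine hf C fun h1 => hC ?_
          show f C * _ = 0
          rw [h1]; simp),
        Finsupp.onFinset_sum _ (by simp)]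
  cv_meet C C' hC := (hY.curve_meet C C' hC).subset fun x hx =>
    ⟨(hY.mqt_pos C x).1 hx.1, (hY.mqt_pos C' x).1 hx.2⟩
  cv_sing C := hY.curve_sing C
  pr_meet p q hpq := (hY.prime_meet p q hpq).subset fun C hC =>
    ⟨by_contra fun h1 => hC.1.ne' (mlt_zero h1), by_contra fun h1 => hC.2.ne' (mlt_zero h1)⟩
  pr_sing p := hY.prime_sing p
  pencil H D₁ D₂ h1 h2 S x := by
    obtain ⟨D, hD, h3, h4⟩ := hT.pencil _ D₁ D₂ ((eff_iff s b _ _).1 h1) ((eff_iff s b _ _).1 h2) S x
    refine ⟨D, (eff_iff s b _ _).2 hD, h3, ?_⟩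
    have h5 : min ((mpt (X := X) D₁ x.pt : ℚ) : ℝ) ((mpt (X := X) D₂ x.pt : ℚ) : ℝ) ≤
        ((mpt D x.pt : ℚ) : ℝ) := by exact_mod_cast h4
    exact ((congrArg₂ min (mpt_eq s b D₁ x) (mpt_eq s b D₂ x)).le.trans h5).trans
      (mpt_eq s b D x).ge
  restr D E G h1 := by
    obtain ⟨D', hD'⟩ := QuotientAddGroup.mk_surjective (b.equivFun.symm D : Div X ⧸ Prin X)
    have h2 := hT.restriction D' (E.mapRange (Nat.cast : ℕ → ℤ) rfl : Pr X →₀ ℤ)
      (G.mapRange (Nat.cast : ℕ → ℤ) rfl : Pr X →₀ ℤ) (fun p => by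
        show (0 : ℤ) ≤ (E.mapRange (Nat.cast : ℕ → ℤ) rfl : Pr X →₀ ℤ) p
        simp) (fun p => by
        show (0 : ℤ) ≤ (G.mapRange (Nat.cast : ℕ → ℤ) rfl : Pr X →₀ ℤ) p
        simp)
      (fun p => by
        show (E.mapRange (Nat.cast : ℕ → ℤ) rfl : Pr X →₀ ℤ) p = 0 ∨
          (G.mapRange (Nat.cast : ℕ → ℤ) rfl : Pr X →₀ ℤ) p = 0
        simpa using h1 p)
    have h3 : cl D' = b.equivFun.symm D := hD'
    show h0 s (b.equivFun.symm D) + h0 s (b.equivFun.symm (D + OG.clN (dat s b) E -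
      OG.clN (dat s b) G)) ≤ h0 s (b.equivFun.symm (D + OG.clN (dat s b) E)) +
      h0 s (b.equivFun.symm (D - OG.clN (dat s b) G))
    rw [clN_eq, clN_eq, map_sub, map_add, map_sub, LinearEquiv.symm_apply_apply,
      LinearEquiv.symm_apply_apply, ← h3]
    exact h2

/-! ### Sections and very general points -/

theorem sections (hY : Sections s) : OG.Sections (dat s b) where
  val x := by
    obtain ⟨S, h1, h2, h3, h4⟩ := hY.valuations x
    refine ⟨fun D => S (b.equivFun.symm D), fun D => h1 _, fun D D' v hv v' hv' => ?_,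
      fun D v hv => ?_, fun H hH => ?_⟩
    · show v + v' ∈ S (b.equivFun.symm (D + D'))
      rw [map_add]
      exact h2 _ _ v hv v' hv'
    · obtain ⟨h5, h6, h7, E, h8, h9⟩ := h3 _ v hv
      refine ⟨h5, h6, h7, E, (eff_iff s b _ _).2 h8, ?_⟩
      exact (mpt_eq s b E x).trans (by rw [h9]; norm_cast)
    · obtain ⟨k, hk, h5⟩ := h4 _ hH
      refine ⟨k, hk, ?_⟩
      show _ ∈ S (b.equivFun.symm ((k : ℤ) • H)) ∧ _ ∈ S (b.equivFun.symm ((k : ℤ) • H)) ∧
        _ ∈ S (b.equivFun.symm ((k : ℤ) • H)) ∧ _ ∈ S (b.equivFun.symm ((k : ℤ) • H))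
      rw [map_zsmul, natCast_zsmul]
      exact h5

theorem general (hY : Cycles s) (hG : ∃ V : Set (Pt X), General V) :
    ∃ V, OG.VeryGeneral (dat s b) V := by
  obtain ⟨V, h1, h2, h3, h4⟩ := hG
  refine ⟨V, h1, fun C x hx hC S => ?_, fun H hH x hx C hC D hD => ?_,
    fun H hH x hx p hp D hD => ?_⟩
  · obtain ⟨z, hz, h5, h6⟩ := h2 C x hx ((hY.mqt_pos C x).1 hC) S
    exact ⟨z, hz, (hY.mqt_pos C z).2 h5, h6⟩
  · obtain ⟨D', h5, h6, h7⟩ := h3 _ hH x hx C ((hY.mqt_pos C x).1 hC) D ((eff_iff s b _ _).1 hD)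
    refine ⟨D', (eff_iff s b _ _).2 h5, ?_, ?_⟩
    · exact (mcv_eq s b D' C).trans (by rw [h6, Rat.cast_zero])
    · have h8 : ((mpt (X := X) D x.pt : ℚ) : ℝ) - ((mpt (X := X) D C.pt : ℚ) : ℝ) ≤
          ((mpt D' x.pt : ℚ) : ℝ) := by exact_mod_cast h7
      exact ((congrArg₂ (· - ·) (mpt_eq s b D x) (mcv_eq s b D C)).le.trans h8).trans
        (mpt_eq s b D' x).ge
  · obtain ⟨D', h5, h6, h7⟩ := h4 _ hH x hx p hp D ((eff_iff s b _ _).1 hD)
    refine ⟨D', (eff_iff s b _ _).2 h5, h6, ?_⟩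
    have h8 : ((mpt (X := X) D x.pt : ℚ) : ℝ) - ((qf (X := X) D p : ℚ) : ℝ) ≤
        ((mpt D' x.pt : ℚ) : ℝ) := by exact_mod_cast h7
    exact ((congrArg (· - ((qf (X := X) D p : ℚ) : ℝ)) (mpt_eq s b D x)).le.trans h8).trans
      (mpt_eq s b D' x).ge

theorem published (hX : CalabiYau s) (h : Published s) (hR : ¬ HasRationalCurve s) :
    OG.Published (dat s b) where
  positivity := positivity s b hX h.lines
  cohomology := cohomology s b hX h.lines hR
  rankTwo := rankTwo s b hX h.lines h.bundles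
  cycles := cycles s b h.lines h.cycles h.sections
  sections := sections s b h.sections
  veryGeneral := general s b h.cycles h.general

end Pool.OGR
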