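import Pool.Agent.H53.OG.Bridge2

namespace Pool.OGR

open AlgebraicGeometry CategoryTheory

/-- The theorem for real Calabi-Yau threefolds, from the theorem about `OG.Data`. -/
theorem final_of
    (hrc : ∀ Y : OG.Data, OG.Published Y →
      (2 ≤ Y.n ∨ ∃ L : Fin Y.n → ℤ, L ≠ 0 ∧ OG.re L ∈ OG.Nef Y ∧ ¬ Y.Ample L) → Y.RC)
    (X : Scheme.{0}) [IsIntegral X] [IsLocallyNoetherian X] (s : X ⟶ Spec (.of ℂ))
    (hX : CalabiYau s) (h : Published s)
    (hn : 2 ≤ Module.finrank ℤ (Pic X) ∨ ∃ a : Pic X, a ≠ 0 ∧ Nef a ∧ ¬ Ample a) :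
    HasRationalCurve s := by
  have : Module.Finite ℤ (Pic X) := h.lines.pic_finite
  have : Module.Free ℤ (Pic X) := pic_free s h.lines
  by_contra hR
  let b := Module.finBasis ℤ (Pic X)
  refine hR (hrc (dat s b) (published s b hX h hR) ?_)
  rcases hn with hn | ⟨a, ha0, han, haa⟩
  · left
    exact hn
  · right
    refine ⟨b.equivFun a, fun h1 => ha0 ((LinearEquiv.map_eq_zero_iff _).1 h1), ?_, ?_⟩
    · rw [nef_iff s b h.lines, LinearEquiv.symm_apply_apply]
      exact han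
    · show ¬ Ample (b.equivFun.symm (b.equivFun a))
      rwa [LinearEquiv.symm_apply_apply]

end Pool.OGR
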