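import Mathlib

/-!
# Rational curves on Calabi-Yau threefolds: real objects

`X` is an integral scheme with a morphism `s` to the spectrum of the complex numbers.  Line bundles
are classes of Weil divisors modulo divisors of rational functions, their sections are described by
effective divisors and by rational functions, multiplicities and intersection numbers by the local
rings of `X`.
-/

namespace Pool.OGR

open AlgebraicGeometry CategoryTheory Order

/-- The points of the scheme `X`. -/
def Point (X : Scheme.{0}) : Type := X

/-- `S y x`: the point `x` is in the closure of the point `y`. -/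
def On {X : Scheme.{0}} (y x : Point X) : Prop := @Specializes X _ y x

/-- Prime divisors: the points of `X` whose closure has codimension one. -/
def Pr (X : Scheme.{0}) : Type := {p : Point X // @coheight X _ p = 1}

/-- Irreducible curves: the points of `X` whose closure has dimension one. -/
def Cv (X : Scheme.{0}) : Type := {C : Point X // @height X _ C = 1}

/-- Closed points. -/
def Pt (X : Scheme.{0}) : Type := {x : Point X // @height X _ x = 0}

/-- The generic point of a prime divisor. -/
def Pr.pt {X : Scheme.{0}} (p : Pr X) : Point X := p.1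

/-- The generic point of a curve. -/
def Cv.pt {X : Scheme.{0}} (C : Cv X) : Point X := C.1

/-- The point. -/
def Pt.pt {X : Scheme.{0}} (x : Pt X) : Point X := x.1

/-- The local ring of `X` at the point `x`. -/
def Loc {X : Scheme.{0}} (x : Point X) : Type := X.presheaf.stalk x

noncomputable instance instCommRingLoc {X : Scheme.{0}} (x : Point X) : CommRing (Loc x) :=
  (fun y : X => (inferInstance : CommRing (X.presheaf.stalk y))) x

instance instIsLocalRingLoc {X : Scheme.{0}} (x : Point X) : IsLocalRing (Loc x) :=
  (fun y : X => (inferInstance : IsLocalRing (X.presheaf.stalk y))) x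

/-- The powers of the maximal ideal of the local ring of `X` at `x`. -/
noncomputable def mpw {X : Scheme.{0}} (x : Point X) (k : ℕ) : Ideal (Loc x) :=
  IsLocalRing.maximalIdeal (Loc x) ^ k

/-- The map from the local ring at `x` to the local ring at `y`, if `x` is in the closure of `y`. -/
noncomputable def spm {X : Scheme.{0}} (y x : Point X) (h : On y x) : Loc x →+* Loc y :=
  (X.presheaf.stalkSpecializes h).hom

open Classical in
/-- The ideal of the closure of `y` in the local ring of `X` at `x`; the unit ideal if `x` is not in
the closure of `y`. -/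
noncomputable def idl {X : Scheme.{0}} (y x : Point X) : Ideal (Loc x) :=
  if h : On y x then (IsLocalRing.maximalIdeal (Loc y)).comap (spm y x h) else ⊤

/-- The length of the quotient of the local ring at `x` by the ideal `I`. -/
noncomputable def len {X : Scheme.{0}} {x : Point X} (I : Ideal (Loc x)) : ℕ :=
  (Module.length (Loc x) (Loc x ⧸ I)).toNat

/-- The length of the quotient of the local ring at `x` by the sum of the ideals `I` and `J`. -/
noncomputable def len₂ {X : Scheme.{0}} {x : Point X} (I J : Ideal (Loc x)) : ℕ := len (I ⊔ J)

/-- The multiplicity of the prime divisor `p` at `x`, a closed point or the generic point of a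
curve: the largest `m` such that the ideal of `p` is contained in the `m`-th power of the maximal
ideal of the local ring. -/
noncomputable def mlt {X : Scheme.{0}} (p : Pr X) (x : Point X) : ℕ :=
  sSup {m : ℕ | idl p.pt x ≤ mpw x m}

/-- The multiplicity of the curve `C` at the closed point `x`: the largest value of
the Hilbert function `dim (m ^ k / m ^ (k + 1))` of the local ring of `C` at `x` (it has this value for
all large `k`). -/
noncomputable def mqt {X : Scheme.{0}} (C : Cv X) (x : Pt X) : ℕ :=
  ⨆ k : ℕ, (len₂ (mpw x.pt (k + 1)) (idl C.pt x.pt) - len₂ (mpw x.pt k) (idl C.pt x.pt))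

/-- Divisors. -/
def Div (X : Scheme.{0}) : Type := Pr X →₀ ℤ

noncomputable instance instAddCommGroupDiv (X : Scheme.{0}) : AddCommGroup (Div X) :=
  (inferInstance : AddCommGroup (Pr X →₀ ℤ))

/-- The coefficient of the prime divisor `p` in the divisor `D`. -/
def cf {X : Scheme.{0}} (D : Div X) (p : Pr X) : ℤ := @DFunLike.coe (Pr X →₀ ℤ) _ _ _ D p

/-- The field of rational functions on `X`. -/
def Fun (X : Scheme.{0}) [IsIntegral X] : Type := X.functionField

section Pic

variable {X : Scheme.{0}} [IsIntegral X]

noncomputable instance instFieldFun (X : Scheme.{0}) [IsIntegral X] : Field (Fun X) :=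
  (inferInstance : Field X.functionField)

/-- The rational functions which are regular at the point `x`. -/
noncomputable def reg (x : Point X) : Set (Fun X) :=
  (fun y : X => Set.range (algebraMap (X.presheaf.stalk y) X.functionField)) x

/-- A complex number as an element of the local ring of `X` at the point `x`. -/
noncomputable def cst (s : X ⟶ Spec (.of ℂ)) (x : Point X) : ℂ →+* Loc x :=
  ((Scheme.ΓSpecIso (.of ℂ)).inv ≫ s.appTop ≫ X.presheaf.germ ⊤ x trivial).hom

/-- A complex number as a rational function. -/
noncomputable def con (s : X ⟶ Spec (.of ℂ)) (z : ℂ) : Fun X := cst s (genericPoint X) z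

variable [IsLocallyNoetherian X]

/-- The order of a rational function along a prime divisor. -/
noncomputable def ord (f : Fun X) (p : Pr X) : ℤ := Scheme.ord (X := X) f p.1

variable (X) in
/-- Divisors of rational functions. -/
noncomputable def Prin : AddSubgroup (Div X) :=
  AddSubgroup.closure {D | ∃ f : Fun X, f ≠ 0 ∧ ∀ p, cf D p = ord f p}

variable (X) in
/-- The group of line bundles, as the group of divisors modulo divisors of functions. -/
def Pic : Type := Div X ⧸ Prin X

noncomputable instance instAddCommGroupPic : AddCommGroup (Pic X) :=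
  (inferInstance : AddCommGroup (Div X ⧸ Prin X))

/-- The class of a divisor. -/
noncomputable def cl (D : Div X) : Pic X := (D : Div X ⧸ Prin X)

/-- A prime divisor as a divisor. -/
noncomputable def prm (p : Pr X) : Div X := Finsupp.single p 1

/-- The class of a prime divisor. -/
noncomputable def clp (p : Pr X) : Pic X := cl (prm p)

/-- The divisor `D` is effective. -/
def Effective (D : Div X) : Prop := ∀ p, 0 ≤ cf D p

/-- The point `x` lies in the open set `U`. -/
def In (U : X.Opens) (x : Point X) : Prop := (fun y : X => y ∈ U) x

/-- The line bundle `a` is ample: the affine complements of the effective divisors in the positive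
multiples of `a` cover `X`. -/
def Ample (a : Pic X) : Prop :=
  ∀ x : Point X, ∃ m : ℕ, 0 < m ∧ ∃ D : Div X, Effective D ∧ cl D = m • a ∧
    ∃ U : X.Opens, IsAffineOpen U ∧ In U x ∧
      ∀ y : Point X, In U y ↔ ∀ p : Pr X, On p.pt y → cf D p = 0

/-- The rational function `f` is a section of the line bundle of `D`: `f = 0` or `div f + D ≥ 0`. -/
def IsSec (D : Div X) (f : Fun X) : Prop := f ≠ 0 → ∀ p, 0 ≤ ord f p + cf D p

/-- The rational functions are linearly independent over the complex numbers. -/
def Indep (s : X ⟶ Spec (.of ℂ)) {n : ℕ} (f : Fin n → Fun X) : Prop :=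
  ∀ c : Fin n → ℂ, ∑ i, con s (c i) * f i = 0 → c = 0

/-- The dimension of the space of sections of the line bundle `a`: the largest number of linearly
independent sections of the line bundle of a divisor in the class `a`. -/
noncomputable def h0 (s : X ⟶ Spec (.of ℂ)) (a : Pic X) : ℕ :=
  sSup {n : ℕ | ∃ D : Div X, cl D = a ∧ ∃ f : Fin n → Fun X, (∀ i, IsSec D (f i)) ∧ Indep s f}

/-- `d` is the degree of line bundles on the curve `C`: it is additive, and for a prime divisor `p`
which does not contain `C` the degree is the sum of the lengths of the local rings of the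
intersection of `p` and `C`. -/
def IsDeg (C : Cv X) (d : Pic X → ℤ) : Prop :=
  (∀ a b, d (a + b) = d a + d b) ∧ ∀ p : Pr X, ¬ On p.pt C.pt →
    d (clp p) = ∑ᶠ x : Pt X, (len₂ (idl p.pt x.pt) (idl C.pt x.pt) : ℤ)

open Classical in
/-- The degree of line bundles on the curve `C`. -/
noncomputable def deg (C : Cv X) (a : Pic X) : ℤ := if h : ∃ d, IsDeg C d then h.choose a else 0

/-- `I` is the intersection form: it is additive in each argument, and for different prime divisors
`p`, `q` the number `I p q a` is the degree of `a` on the intersection cycle of `p` and `q`. -/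
def IsInt (I : Pic X → Pic X → Pic X → ℤ) : Prop :=
  (∀ a a' b c, I (a + a') b c = I a b c + I a' b c) ∧
  (∀ a b b' c, I a (b + b') c = I a b c + I a b' c) ∧
  (∀ a b c c', I a b (c + c') = I a b c + I a b c') ∧
  ∀ p q : Pr X, p ≠ q → ∀ a : Pic X,
    I (clp p) (clp q) a = ∑ᶠ C : Cv X, (len₂ (idl p.pt C.pt) (idl q.pt C.pt) : ℤ) * deg C a

open Classical in
/-- The intersection form. -/
noncomputable def tri (a b c : Pic X) : ℤ :=
  if h : ∃ I : Pic X → Pic X → Pic X → ℤ, IsInt I then h.choose a b c else 0

/-- `c` is the linear form given by the second Chern class of a smooth projective threefold with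
trivial canonical bundle, characterised by the theorem of Riemann-Roch for ample line bundles. -/
def IsC2 (s : X ⟶ Spec (.of ℂ)) (c : Pic X → ℤ) : Prop :=
  (∀ a b, c (a + b) = c a + c b) ∧
    ∀ a : Pic X, Ample a → 12 * (h0 s a : ℤ) = 2 * tri a a a + c a

open Classical in
/-- The second Chern class, as a linear form on the group of line bundles. -/
noncomputable def c2 (s : X ⟶ Spec (.of ℂ)) (a : Pic X) : ℤ :=
  if h : ∃ c, IsC2 s c then h.choose a else 0

/-- The line bundle `a` is nef: its degree on every curve is nonnegative. -/
def Nef (a : Pic X) : Prop := ∀ C : Cv X, 0 ≤ deg C a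

/-- `D` is a derivation of the field of rational functions over the complex numbers. -/
def IsDer (s : X ⟶ Spec (.of ℂ)) (D : Fun X → Fun X) : Prop :=
  (∀ f g, D (f + g) = D f + D g) ∧ (∀ f g, D (f * g) = f * D g + g * D f) ∧
    ∀ z : ℂ, D (con s z) = 0

/-- The stalk of the tangent sheaf at the point `x`: the derivations which preserve the local ring. -/
def Tan (s : X ⟶ Spec (.of ℂ)) (x : Point X) : Set (Fun X → Fun X) :=
  {D | IsDer s D ∧ ∀ f ∈ reg x, D f ∈ reg x}

/-- The value of the differential form `u df₀ ∧ df₁ ∧ df₂` at the vector fields `D₀`, `D₁`, `D₂`. -/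
noncomputable def val (u : Fun X) (f : Fin 3 → Fun X) (D : Fin 3 → Fun X → Fun X) : Fun X :=
  u * (Matrix.of fun i j => D i (f j)).det

/-- The canonical bundle is trivial: there is a rational differential form of degree three which
generates the canonical bundle at every point `x`: its values at vector fields which are regular at
`x` are regular at `x`, and one is among them. -/
def CanonicalTrivial (s : X ⟶ Spec (.of ℂ)) : Prop :=
  ∃ (u : Fun X) (f : Fin 3 → Fun X), ∀ x : Point X,
    (∀ D : Fin 3 → Fun X → Fun X, (∀ i, D i ∈ Tan s x) → val u f D ∈ reg x) ∧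
    ∃ D : Fin 3 → Fun X → Fun X, (∀ i, D i ∈ Tan s x) ∧ val u f D = 1

/-- The stalk at `x` of the line bundle of the divisor `D`: the rational functions `f` with `f = 0` or
`div f + D ≥ 0` near `x`. -/
def sec (D : Div X) (x : Point X) : Set (Fun X) :=
  {f | f ≠ 0 → ∀ p : Pr X, On p.pt x → 0 ≤ ord f p + cf D p}

/-- The product of a rational function and a pair of rational functions. -/
noncomputable def sm (f : Fun X) (w : Fun X × Fun X) : Fun X × Fun X := (f * w.1, f * w.2)

/-- The determinant of two pairs of rational functions. -/
noncomputable def det₂ (u v : Fun X × Fun X) : Fun X := u.1 * v.2 - u.2 * v.1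

variable (X) in
/-- A vector bundle of rank two: the stalks, as sets of pairs of rational functions.  They are
locally generated by two sections. -/
structure Bundle where
  st : Point X → Set (Fun X × Fun X)
  loc : ∀ x : Point X, ∃ U : X.Opens, In U x ∧ ∃ u v : Fun X × Fun X, det₂ u v ≠ 0 ∧
    ∀ y : Point X, In U y → st y = {w | ∃ f ∈ reg y, ∃ g ∈ reg y, w = sm f u + sm g v}

/-- `O(b)` is a saturated subsheaf of `E`: it is the intersection of `E` and the line of `w`. -/
def LineIn (E : Bundle X) (b : Pic X) : Prop :=
  ∃ w : Fun X × Fun X, w ≠ 0 ∧ ∃ D : Div X, cl D = b ∧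
    ∀ (x : Point X) (f : Fun X), sm f w ∈ E.st x ↔ f ∈ sec D x

/-- `E` is an extension of the line bundle `a` by the trivial line bundle, which does not split: the
kernel of the map `v ↦ u ∧ v` from `E` to `O(D)`, `D` a divisor in the class `a`, is `O u`, the map is
surjective, and there is no section `w` of the map. -/
def NonSplit (E : Bundle X) (a : Pic X) : Prop :=
  ∃ (u : Fun X × Fun X) (D : Div X), cl D = a ∧
    (∀ (x : Point X) (f : Fun X), sm f u ∈ E.st x ↔ f ∈ sec 0 x) ∧
    (∀ (x : Point X) (f : Fun X), (∃ v ∈ E.st x, det₂ u v = f) ↔ f ∈ sec D x) ∧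
    ¬ ∃ w : Fun X × Fun X, det₂ u w = 1 ∧ ∀ (x : Point X), ∀ f ∈ sec D x, sm f w ∈ E.st x

/-- `X` is a Calabi-Yau threefold: smooth of dimension three, projective, with trivial canonical
bundle, and without connected finite etale coverings of degree greater than one.  (Such an `X` is
simply connected, `H^1(X, O) = 0` and, by Serre duality, `H^2(X, O) = 0`.) -/
structure CalabiYau (s : X ⟶ Spec (.of ℂ)) : Prop where
  smooth : SmoothOfRelativeDimension 3 s
  proper : IsProper s
  projective : ∃ a : Pic X, Ample a
  canonical : CanonicalTrivial s
  simplyConnected : ∀ (Y : Scheme.{0}) (f : Y ⟶ X), IsFinite f → Etale f → ConnectedSpace Y →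
    IsIso f

/-- `X` contains a rational curve: the function field of some curve `C` in `X`, the residue field of
the local ring at the generic point of `C`, is isomorphic to the field of rational functions in one
variable over the complex numbers. -/
def HasRationalCurve (s : X ⟶ Spec (.of ℂ)) : Prop :=
  ∃ C : Cv X, ∃ e : IsLocalRing.ResidueField (Loc C.pt) ≃+* RatFunc ℂ,
    ∀ z : ℂ, e (IsLocalRing.residue (Loc C.pt) (cst s C.pt z)) = RatFunc.C z

variable (X) in
omit [IsIntegral X] [IsLocallyNoetherian X] in
/-- Rational divisors. -/
def QDiv : Type := Pr X →₀ ℚ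

omit [IsIntegral X] [IsLocallyNoetherian X] in
/-- The coefficient of the prime divisor `p` in the rational divisor `D`. -/
def qf (D : QDiv X) (p : Pr X) : ℚ := @DFunLike.coe (Pr X →₀ ℚ) _ _ _ D p

/-- Multiplicity of a rational divisor at the point `x`. -/
noncomputable def mpt (D : QDiv X) (x : Point X) : ℚ :=
  Finsupp.sum (α := Pr X) (M := ℚ) D fun p a => a * (mlt p x : ℚ)

/-- `D` is an effective rational divisor in the class `a`: for some `m > 0` the divisor `m D` is
integral and its class is `m a`. -/
def Eff (D : QDiv X) (a : Pic X) : Prop :=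
  (∀ p, 0 ≤ qf D p) ∧ ∃ m : ℕ, 0 < m ∧ ∃ E : Div X, (∀ p, (cf E p : ℚ) = m * qf D p) ∧ cl E = m • a

/-! ### The published theorems -/

/-- Line bundles. -/
structure Lines (s : X ⟶ Spec (.of ℂ)) : Prop where
  /-- the degree of line bundles on a curve exists -/
  deg_exists : ∀ C : Cv X, ∃ d, IsDeg C d
  /-- the intersection form exists -/
  tri_exists : ∃ I : Pic X → Pic X → Pic X → ℤ, IsInt I
  /-- the intersection form is symmetric -/
  tri_comm : ∀ a b c : Pic X, tri a b c = tri a c b
  /-- Riemann-Roch and Kodaira vanishing: `12 h^0(a) = 12 χ(a) = 2 a^3 + c_2 a` for ample `a` -/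
  c2_exists : ∃ c, IsC2 s c
  /-- the group of line bundles is finitely generated (Severi, Neron; `H^1(X, O) = 0`) -/
  pic_finite : Module.Finite ℤ (Pic X)
  /-- a line bundle of degree zero on every curve is trivial (`H^1(X, O) = 0`, no torsion) -/
  numerical : ∀ a : Pic X, (∀ C, deg C a = 0) → a = 0
  /-- some line bundle has nonzero degree on the curve (`X` is projective) -/
  curve_ne : ∀ C : Cv X, ∃ a : Pic X, deg C a ≠ 0
  /-- Kleiman 1966: the ample classes are those in the interior of the nef cone -/
  kleiman : ∀ a : Pic X, Ample a ↔ ∀ b : Pic X, ∃ m : ℕ, 0 < m ∧ Nef (m • a + b)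
  /-- Yau 1978: the second Chern class is positive on ample line bundles, as `X` is not covered by an
  abelian threefold -/
  c2_pos : ∀ a : Pic X, Ample a → 0 < c2 s a
  /-- Peternell 1991: a nontrivial line bundle with a section is ample, or `X` contains a rational
  curve -/
  peternell : ∀ a : Pic X, a ≠ 0 → h0 s a ≠ 0 → Ample a ∨ HasRationalCurve s

/-- Extensions of line bundles by the trivial line bundle. -/
structure Bundles (s : X ⟶ Spec (.of ℂ)) : Prop where
  /-- By Riemann-Roch and Serre duality `χ(a) > h^0(a) - h^0(-a) = h^0(a) - h^3(a)` implies that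
  `H^2(a)`, `H^1(-a) = Ext^1(O(a), O)` are not zero. -/
  extension : ∀ a : Pic X, 12 * (h0 s a : ℤ) < 2 * tri a a a + c2 s a + 12 * (h0 s (-a) : ℤ) →
    ∃ E, NonSplit E a
  /-- a line bundle in the extension is contained in `O`, or it maps to `O(a)` by a nonzero map, which
  is not an isomorphism as the extension does not split -/
  line_in : ∀ (E : Bundle X) (a b : Pic X), NonSplit E a → LineIn E b →
    h0 s (-b) ≠ 0 ∨ (a - b ≠ 0 ∧ h0 s (a - b) ≠ 0)
  /-- the quotient of `E` by the saturated subsheaf `O(b)` is the ideal sheaf of a closed subscheme `Z`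
  of codimension two, twisted by `a - b`, and `0 = c_2(E) = b (a - b) + [Z]` -/
  line_tri : ∀ (E : Bundle X) (a b : Pic X), NonSplit E a → LineIn E b →
    ∀ h, Ample h → tri b (a - b) h ≤ 0
  /-- Donaldson 1985, Uhlenbeck-Yau 1986, Luebke 1982: a slope stable bundle has discriminant of
  nonnegative degree, here `(4 c_2(E) - c_1(E)^2) h = - a^2 h`, and if the degree is zero it is
  projectively flat; as `X` is simply connected, a projectively flat bundle of rank two is a
  sum of two isomorphic line bundles and is not stable -/
  luebke : ∀ (E : Bundle X) (a h : Pic X), NonSplit E a → Ample h →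
    (∀ b, LineIn E b → 2 * tri b h h < tri a h h) → tri a a h < 0

/-- Prime divisors, curves and multiplicities. -/
structure Cycles (s : X ⟶ Spec (.of ℂ)) : Prop where
  /-- the line bundle of a prime divisor has a section -/
  prime_h0 : ∀ p : Pr X, h0 s (clp p) ≠ 0
  /-- the line bundle of a prime divisor is not trivial -/
  prime_ne : ∀ p : Pr X, clp p ≠ 0
  /-- a prime divisor contains a closed point -/
  prime_pt : ∀ p : Pr X, ∃ x : Pt X, 0 < mlt p x.pt
  /-- multiplicity is upper semicontinuous -/
  mlt_le : ∀ (p : Pr X) (C : Cv X) (x : Pt X), On C.pt x.pt → mlt p C.pt ≤ mlt p x.pt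
  /-- the multiplicity of a curve at a point is positive if and only if the point is on the curve -/
  mqt_pos : ∀ (C : Cv X) (x : Pt X), 0 < mqt C x ↔ On C.pt x.pt
  /-- Bezout: if a curve is not contained in a prime divisor, their intersection number is at
  least the product of the multiplicities at any point -/
  bezout : ∀ (p : Pr X) (C : Cv X) (x : Pt X), mlt p C.pt = 0 →
    (mlt p x.pt * mqt C x : ℤ) ≤ deg C (clp p)
  /-- two different prime divisors have finitely many common curves -/
  prime_meet : ∀ p q : Pr X, p ≠ q → {C : Cv X | On p.pt C.pt ∧ On q.pt C.pt}.Finite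
  /-- the multiplicity of the intersection cycle of two different prime divisors at a point is at
  least the product of their multiplicities (Fulton, Corollary 12.4) -/
  samuel : ∀ p q : Pr X, p ≠ q → ∀ x : Pt X,
    mlt p x.pt * mlt q x.pt ≤ ∑ᶠ C : Cv X, len₂ (idl p.pt C.pt) (idl q.pt C.pt) * mqt C x
  /-- two different curves meet in a finite set -/
  curve_meet : ∀ C C' : Cv X, C ≠ C' → {x : Pt X | On C.pt x.pt ∧ On C'.pt x.pt}.Finite
  /-- a curve has a finite set of singular points -/
  curve_sing : ∀ C : Cv X, {x : Pt X | 1 < mqt C x}.Finite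
  /-- a prime divisor is singular along a finite set of curves -/
  prime_sing : ∀ p : Pr X, {C : Cv X | 1 < mlt p C.pt}.Finite

/-- Sections of line bundles. -/
structure Sections (s : X ⟶ Spec (.of ℂ)) : Prop where
  /-- a general member of the pencil spanned by (multiples of) two effective divisors of the
  same class contains no prime divisor of a given finite set, except those which both contain, and
  its multiplicity at a point is at least the smaller one -/
  pencil : ∀ (a : Pic X) (D₁ D₂ : QDiv X), Eff D₁ a → Eff D₂ a → ∀ (S : Finset (Pr X))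
    (x : Pt X), ∃ D : QDiv X, Eff D a ∧ (∀ p ∈ S, qf D₁ p = 0 ∨ qf D₂ p = 0 → qf D p = 0) ∧
      min (mpt D₁ x.pt) (mpt D₂ x.pt) ≤ mpt D x.pt
  /-- If `D₁`, `D₂` are effective divisors without common component and `D` is a divisor, then inside
  the space of sections of `D + D₁` the sections of `D` and of `D + D₁ - D₂` have as intersection
  the sections of `D - D₂`. -/
  restriction : ∀ D D₁ D₂ : Div X, Effective D₁ → Effective D₂ →
    (∀ p, cf D₁ p = 0 ∨ cf D₂ p = 0) →
    h0 s (cl D) + h0 s (cl (D + D₁ - D₂)) ≤ h0 s (cl (D + D₁)) + h0 s (cl (D - D₂))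
  /-- Let `x` be a point and `E = P^2` the exceptional divisor of the blow-up of `x`; choose a
  line in `E` and a point on the line.  The valuation vector of a nonzero section of a line
  bundle is `(m, i, j)`: `m` is its multiplicity at `x`, `i` the multiplicity of the line in
  the plane curve of degree `m` in `E` given by the leading form, and `j` the multiplicity of
  the point in the divisor of degree `m - i` cut out on the line by the rest of the curve.
  `S a` is the set of these vectors for the sections of `a`.  It has `h^0(a)` elements, because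
  a valuation of maximal rational rank has one-dimensional leaves (Lazarsfeld-Mustata 2009,
  Lemma 1.4), and valuation vectors of products are sums.  The last line: some multiple of an
  ample `a` separates tangent vectors at `x`. -/
  valuations : ∀ x : Pt X, ∃ S : Pic X → Finset (ℤ × (ℤ × ℤ)),
    (∀ a, (S a).card = h0 s a) ∧
    (∀ a a', ∀ v ∈ S a, ∀ v' ∈ S a', v + v' ∈ S (a + a')) ∧
    (∀ a, ∀ v ∈ S a, 0 ≤ v.2.1 ∧ 0 ≤ v.2.2 ∧ v.2.1 + v.2.2 ≤ v.1 ∧
      ∃ D, Eff D a ∧ mpt D x.pt = (v.1 : ℚ)) ∧
    ∀ a, Ample a → ∃ k : ℕ, 0 < k ∧ (0, (0, 0)) ∈ S (k • a) ∧ (1, (0, 0)) ∈ S (k • a) ∧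
      (1, (1, 0)) ∈ S (k • a) ∧ (1, (0, 1)) ∈ S (k • a)

/-- The set `V` of closed points consists of very general points: it is the complement of a countable
union of suitable proper closed subsets, it is not empty, a curve through a point of `V` contains
infinitely many points of `V`, and the theorem on differentiation in families applies
(Ein-Kuechle-Lazarsfeld 1995, Proposition 2.3). -/
structure General (V : Set (Pt X)) : Prop where
  nonempty : V.Nonempty
  infinite : ∀ (C : Cv X) (x : Pt X), x ∈ V → On C.pt x.pt → ∀ S : Finset (Pt X),
    ∃ z ∈ V, On C.pt z.pt ∧ z ∉ S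
  /-- if a curve passes through a point `x` of `V`, then for every effective rational divisor `D` with
  an ample class there is one with the same class which does not contain the curve, and whose
  multiplicity at `x` is smaller by at most the multiplicity of `D` along the curve -/
  curve : ∀ a : Pic X, Ample a → ∀ x ∈ V, ∀ C : Cv X, On C.pt x.pt → ∀ D, Eff D a →
    ∃ D', Eff D' a ∧ mpt D' C.pt = 0 ∧ mpt D x.pt - mpt D C.pt ≤ mpt D' x.pt
  /-- the same for a prime divisor through `x` -/
  prime : ∀ a : Pic X, Ample a → ∀ x ∈ V, ∀ p : Pr X, 0 < mlt p x.pt → ∀ D, Eff D a →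
    ∃ D', Eff D' a ∧ qf D' p = 0 ∧ mpt D x.pt - qf D p ≤ mpt D' x.pt

/-- The published theorems for the Calabi-Yau threefold `X`. -/
structure Published (s : X ⟶ Spec (.of ℂ)) : Prop where
  lines : Lines s
  bundles : Bundles s
  cycles : Cycles s
  sections : Sections s
  general : ∃ V : Set (Pt X), General V

end Pic

end Pool.OGR
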